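import Pool.Agent.Helper19.Rado.Fin

/-!
# Two side lengths: the constant
-/

open MeasureTheory Set
open scoped ENNReal NNReal

namespace Pool.Agent.Helper19.Rado

open Pool.Agent.Helper15.Rado

/-- the constant for two side lengths with ratio `μ ≤ 1` -/
noncomputable def kap (μ : ℝ) : ℝ :=
  max (13 / 80) (max (1 / (4 * (2 - μ ^ 2)))
    (if μ ≤ 1 / 2 then (μ ^ 2 + 4 * (1 - μ ^ 2) ^ 2 / (4 + 2 * μ - μ ^ 2)) / 4 else 0))

/-- combining two strategies -/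
theorem combine {F : Finset Sq} {v w x : ℝ} (hx0 : 0 ≤ x) (hx1 : x ≤ 1)
    (h1 : ∃ G ⊆ F, No G ∧ v ≤ area G) (h2 : ∃ G ⊆ F, No G ∧ w ≤ area G) :
    ∃ G ⊆ F, No G ∧ x * v + (1 - x) * w ≤ area G := by
  obtain ⟨G, hG, hG', hv⟩ := h1
  obtain ⟨H, hH, hH', hw⟩ := h2
  have a1 : x * v ≤ x * area G := mul_le_mul_of_nonneg_left hv hx0
  have a2 : (1 - x) * w ≤ (1 - x) * area H := mul_le_mul_of_nonneg_left hw (by linarith)
  rcases le_total (area G) (area H) with h | h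
  · exact ⟨H, hH, hH', by nlinarith⟩
  · exact ⟨G, hG, hG', by nlinarith⟩

theorem two_sides_a {a b : ℝ} (hb : 0 < b) (hab : b ≤ a) (F : Finset Sq)
    (hF : ∀ Q ∈ F, Q.s = a ∨ Q.s = b) :
    ∃ G ⊆ F, No G ∧ 1 / (4 * (2 - (b / a) ^ 2)) * area F ≤ area G := by
  have ha : 0 < a := hb.trans_le hab
  have h1 := two_second hb hab F hF
  have h2 := two_third hb F hF
  set μ := b / a with hμdef
  have hμ0 : 0 < μ := div_pos hb ha
  have hμ1 : μ ≤ 1 := (div_le_one ha).2 hab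
  have hμ2 : μ ^ 2 ≤ 1 := by nlinarith
  have hd : 0 < 2 - μ ^ 2 := by linarith
  obtain ⟨G, hG, hG', hv⟩ := combine (x := 1 / (2 - μ ^ 2)) (by positivity)
    (by rw [div_le_one hd]; linarith) h1 h2
  refine ⟨G, hG, hG', le_trans (le_of_eq ?_) hv⟩
  field_simp
  ring

theorem two_sides_b {a b : ℝ} (hb : 0 < b) (hab : b ≤ a) (hμ : b / a ≤ 1 / 2) (F : Finset Sq)
    (hF : ∀ Q ∈ F, Q.s = a ∨ Q.s = b) :
    ∃ G ⊆ F, No G ∧ ((b / a) ^ 2 + 4 * (1 - (b / a) ^ 2) ^ 2 / (4 + 2 * (b / a) - (b / a) ^ 2)) / 4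
      * area F ≤ area G := by
  have ha : 0 < a := hb.trans_le hab
  have hμ0 : 0 < b / a := div_pos hb ha
  have h1 := two_first hb hab (ξ := 1 / 4) (by norm_num) le_rfl (by nlinarith) F hF
  have h2 := two_second hb hab F hF
  set μ := b / a with hμdef
  have hd : 0 < 4 + 2 * μ - μ ^ 2 := by nlinarith
  have hμ2 : 0 ≤ 1 - μ ^ 2 := by nlinarith
  obtain ⟨G, hG, hG', hv⟩ := combine (x := 4 * (1 - μ ^ 2) / (4 + 2 * μ - μ ^ 2))
    (by positivity) (by rw [div_le_one hd]; nlinarith) h1 h2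
  refine ⟨G, hG, hG', le_trans (le_of_eq ?_) hv⟩
  have h3 : (1 - 1 / 4 * (4 + 2 * μ + 3 * μ ^ 2)) / 4
      = -((4 + 2 * μ - μ ^ 2) - 4 * (1 - μ ^ 2)) / 16 := by ring
  rw [h3]
  generalize 4 + 2 * μ - μ ^ 2 = d at hd
  have hd' : d ≠ 0 := hd.ne'
  field_simp
  ring

theorem two_sides_c {a b : ℝ} (hb : 0 < b) (hab : b ≤ a) (F : Finset Sq)
    (hF : ∀ Q ∈ F, Q.s = a ∨ Q.s = b) :
    ∃ G ⊆ F, No G ∧ 13 / 80 * area F ≤ area G := by
  have ha : 0 < a := hb.trans_le hab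
  have hμ0 : 0 < b / a := div_pos hb ha
  have hμ1 : b / a ≤ 1 := (div_le_one ha).2 hab
  have hA : 0 ≤ area F := area_nonneg F
  rcases le_total (6 / 13) ((b / a) ^ 2) with hm | hm
  · obtain ⟨G, hG, hG', hv⟩ := two_sides_a hb hab F hF
    refine ⟨G, hG, hG', le_trans (mul_le_mul_of_nonneg_right ?_ hA) hv⟩
    have hμ2 : (b / a) ^ 2 ≤ 1 := by nlinarith
    rw [div_le_div_iff₀ (by norm_num) (by linarith)]
    linarith
  · have hμ3 : b / a ≤ 68 / 100 := by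
      by_contra h
      push Not at h
      nlinarith
    have h1 := two_first hb hab (ξ := 183 / 1000) (by norm_num) (by norm_num)
      (by nlinarith) F hF
    have h2 := two_second hb hab F hF
    have hL : 0 ≤ area (F.filter (fun Q => Q.s = a)) := area_nonneg _
    set μ := b / a with hμdef
    set aL := area (F.filter (fun Q => Q.s = a))
    rcases le_total (183 / 1000 * (4 + 2 * μ + 3 * μ ^ 2)) 1 with h | h
    · obtain ⟨G, hG, hG', hv⟩ := h1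
      refine ⟨G, hG, hG', le_trans ?_ hv⟩
      have := mul_nonneg (sub_nonneg.2 h) hL
      nlinarith
    · set D := 183 / 1000 * (4 + 2 * μ + 3 * μ ^ 2) - 1 with hD
      have hD0 : 0 ≤ D := by linarith
      have hμ2 : 0 < 1 - μ ^ 2 := by linarith
      have hden : 0 < 1 - μ ^ 2 + D := by linarith
      obtain ⟨G, hG, hG', hv⟩ := combine (x := (1 - μ ^ 2) / (1 - μ ^ 2 + D))
        (by positivity) (by rw [div_le_one hden]; linarith) h1 h2
      refine ⟨G, hG, hG', le_trans ?_ hv⟩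
      have e1 : (1 - μ ^ 2) / (1 - μ ^ 2 + D) * (183 / 1000 * area F
          + (1 - 183 / 1000 * (4 + 2 * μ + 3 * μ ^ 2)) / 4 * aL)
          + (1 - (1 - μ ^ 2) / (1 - μ ^ 2 + D)) * (((1 - μ ^ 2) * aL + μ ^ 2 * area F) / 4)
          = (183 / 1000 * (1 - μ ^ 2) + D * μ ^ 2 / 4) / (1 - μ ^ 2 + D) * area F := by
        have h3 : 1 - 183 / 1000 * (4 + 2 * μ + 3 * μ ^ 2) = -D := by rw [hD]; ring
        rw [h3]
        field_simp
        ring
      rw [e1]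
      refine mul_le_mul_of_nonneg_right ?_ hA
      rw [div_le_div_iff₀ (by norm_num) hden, hD]
      have h4 : 0 ≤ (μ - 68 / 100) ^ 2 * (549 / 1000 * μ ^ 2 + 111264 / 100000 * μ
          + 55247 / 100000) := by positivity
      nlinarith

theorem two_sides {a b : ℝ} (hb : 0 < b) (hab : b ≤ a) (F : Finset Sq)
    (hF : ∀ Q ∈ F, Q.s = a ∨ Q.s = b) :
    ∃ G ⊆ F, NonOv G ∧ kap (b / a) * area F ≤ area G := by
  have hA : 0 ≤ area F := area_nonneg F
  unfold kap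
  rcases max_cases (13 / 80 : ℝ) (max (1 / (4 * (2 - (b / a) ^ 2)))
    (if b / a ≤ 1 / 2 then ((b / a) ^ 2 + 4 * (1 - (b / a) ^ 2) ^ 2
      / (4 + 2 * (b / a) - (b / a) ^ 2)) / 4 else 0)) with ⟨h, -⟩ | ⟨h, -⟩
  · rw [h]
    obtain ⟨G, hG, hG', hv⟩ := two_sides_c hb hab F hF
    exact ⟨G, hG, hG'.nonOv, hv⟩
  · rw [h]
    rcases max_cases (1 / (4 * (2 - (b / a) ^ 2)))
      (if b / a ≤ 1 / 2 then ((b / a) ^ 2 + 4 * (1 - (b / a) ^ 2) ^ 2
        / (4 + 2 * (b / a) - (b / a) ^ 2)) / 4 else 0) with ⟨h, -⟩ | ⟨h, -⟩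
    · rw [h]
      obtain ⟨G, hG, hG', hv⟩ := two_sides_a hb hab F hF
      exact ⟨G, hG, hG'.nonOv, hv⟩
    · rw [h]
      split_ifs with hμ
      · obtain ⟨G, hG, hG', hv⟩ := two_sides_b hb hab hμ F hF
        exact ⟨G, hG, hG'.nonOv, hv⟩
      · obtain ⟨G, hG, hG', hv⟩ := two_sides_c hb hab F hF
        exact ⟨G, hG, hG'.nonOv, by nlinarith⟩

end Pool.Agent.Helper19.Rado
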