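import Pool.Agent.Helper19.Rado.Sel

/-!
# Adding smaller squares which do not overlap the chosen ones

`F` a family, `G` a nonoverlapping family of squares of side `s`, `t` a bound for the sides of the
squares of `F`: the points of the union of `F` which are not covered by the members of `F` that do
not overlap `G` are within distance `t` of a member of `G`.
-/

open MeasureTheory Set
open scoped ENNReal NNReal

namespace Pool.Agent.Helper19.Rado

open Pool.Agent.Helper15.Rado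

/-- the `t`-neighbourhood -/
def nb (t : ℝ) (Q : Sq) : Set (ℝ × ℝ) :=
  Icc (Q.x - t) (Q.x + Q.s + t) ×ˢ Icc (Q.y - t) (Q.y + Q.s + t)

theorem volume_set (Q : Sq) : volume Q.set = ENNReal.ofReal (Q.s ^ 2) := by
  rw [Sq.set, Measure.volume_eq_prod, Measure.prod_prod, Real.volume_Icc, Real.volume_Icc,
    ← ENNReal.ofReal_mul (by have := Q.pos; linarith)]
  congr 1
  ring

theorem volume_nb {t : ℝ} (ht : 0 ≤ t) (Q : Sq) :
    volume (nb t Q) = ENNReal.ofReal ((Q.s + 2 * t) ^ 2) := by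
  rw [nb, Measure.volume_eq_prod, Measure.prod_prod, Real.volume_Icc, Real.volume_Icc,
    ← ENNReal.ofReal_mul (by have := Q.pos; linarith)]
  congr 1
  ring

theorem set_subset_nb {t : ℝ} (ht : 0 ≤ t) (Q : Sq) : Q.set ⊆ nb t Q := by
  rintro ⟨a, b⟩ ⟨⟨h1, h2⟩, ⟨h3, h4⟩⟩
  simp only at h1 h2 h3 h4
  refine ⟨⟨?_, ?_⟩, ⟨?_, ?_⟩⟩ <;> simp only <;> linarith

theorem measurableSet_set (Q : Sq) : MeasurableSet Q.set := measurableSet_Icc.prod measurableSet_Icc

theorem volume_ring {t : ℝ} (ht : 0 ≤ t) (Q : Sq) :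
    volume (nb t Q \ Q.set) = ENNReal.ofReal (4 * t * (Q.s + t)) := by
  rw [measure_sdiff (set_subset_nb ht Q) (measurableSet_set Q).nullMeasurableSet
    (by rw [volume_set]; exact ENNReal.ofReal_ne_top), volume_nb ht, volume_set,
    ← ENNReal.ofReal_sub _ (by positivity)]
  congr 1
  ring

theorem mem_nb {t : ℝ} {K Q : Sq} (hK : K.s ≤ t) (h : ov K Q) {p : ℝ × ℝ} (hp : p ∈ K.set) :
    p ∈ nb t Q := by
  obtain ⟨⟨h1, h2⟩, ⟨h3, h4⟩⟩ := hp
  obtain ⟨⟨c1, c2⟩, ⟨c3, c4⟩⟩ := h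
  refine ⟨⟨?_, ?_⟩, ⟨?_, ?_⟩⟩ <;> linarith

/-- the members of `F` with side at most `t` which do not overlap `G` -/
noncomputable def free (t : ℝ) (F G : Finset Sq) : Finset Sq := by
  classical
  exact F.filter fun K => K.s ≤ t ∧ ∀ Q ∈ G, ¬ ov K Q

theorem mem_free {t : ℝ} {F G : Finset Sq} {K : Sq} :
    K ∈ free t F G ↔ K ∈ F ∧ K.s ≤ t ∧ ∀ Q ∈ G, ¬ ov K Q := by
  classical
  unfold free
  rw [Finset.mem_filter]

/-- `F` is the union of `L` and of squares of side at most `t`, `G ⊆ L` -/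
theorem cover {t : ℝ} {F L G : Finset Sq} (hF : ∀ K ∈ F, K ∈ L ∨ K.s ≤ t) (hG : G ⊆ L) :
    Un F ⊆ (Un (free t F G) ∪ Un L) ∪ ⋃ Q ∈ G, (nb t Q \ Q.set) := by
  intro p hp
  obtain ⟨K, hK, hpK⟩ := mem_Un.1 hp
  by_cases hL : p ∈ Un L
  · exact Or.inl (Or.inr hL)
  · have hKt : K.s ≤ t := (hF K hK).resolve_left fun h => hL (mem_Un.2 ⟨K, h, hpK⟩)
    by_cases hfree : ∀ Q ∈ G, ¬ ov K Q
    · exact Or.inl (Or.inl (mem_Un.2 ⟨K, mem_free.2 ⟨hK, hKt, hfree⟩, hpK⟩))
    · push Not at hfree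
      obtain ⟨Q, hQ, hov⟩ := hfree
      refine Or.inr ?_
      rw [mem_iUnion₂]
      exact ⟨Q, hQ, mem_nb hKt hov hpK, fun h => hL (mem_Un.2 ⟨Q, hG hQ, h⟩)⟩

theorem area_cover {s t : ℝ} (hs : 0 < s) (ht : 0 ≤ t) {F L G : Finset Sq}
    (hF : ∀ K ∈ F, K ∈ L ∨ K.s ≤ t) (hG : G ⊆ L) (hGs : ∀ Q ∈ G, Q.s = s) :
    area F ≤ area (free t F G) + area L + G.card * (4 * t * (s + t)) := by
  have h1 : volume (Un F) ≤ volume (Un (free t F G)) + volume (Un L)
      + ∑ Q ∈ G, volume (nb t Q \ Q.set) :=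
    (measure_mono (cover hF hG)).trans ((measure_union_le _ _).trans
      (add_le_add (measure_union_le _ _) (measure_biUnion_finset_le _ _)))
  have h2 : ∑ Q ∈ G, volume (nb t Q \ Q.set) = ENNReal.ofReal (G.card * (4 * t * (s + t))) := by
    rw [Finset.sum_congr rfl fun Q hQ => by rw [volume_ring ht, hGs Q hQ], Finset.sum_const,
      nsmul_eq_mul, ENNReal.ofReal_mul (p := (G.card : ℝ)) (by positivity), ENNReal.ofReal_natCast]
  rw [h2] at h1
  have h3 := ENNReal.toReal_mono (ENNReal.add_ne_top.2 ⟨ENNReal.add_ne_top.2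
    ⟨volume_ne_top _, volume_ne_top _⟩, ENNReal.ofReal_ne_top⟩) h1
  rw [ENNReal.toReal_add (ENNReal.add_ne_top.2 ⟨volume_ne_top _, volume_ne_top _⟩)
    ENNReal.ofReal_ne_top, ENNReal.toReal_add (volume_ne_top _) (volume_ne_top _),
    ENNReal.toReal_ofReal (by positivity)] at h3
  exact h3

/-- union of two nonoverlapping families -/
theorem area_union {s t : ℝ} {F G H : Finset Sq} (hG : No G) (hGs : ∀ Q ∈ G, Q.s = s)
    (hH : No H) (hHF : H ⊆ free t F G) :
    No (G ∪ H) ∧ G.card * s ^ 2 + area H ≤ area (G ∪ H) := by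
  have hno : No (G ∪ H) := by
    intro P hP Q hQ hPQ
    rw [Finset.mem_union] at hP hQ
    rcases hP with hP | hP <;> rcases hQ with hQ | hQ
    · exact hG P hP Q hQ hPQ
    · exact fun h => (mem_free.1 (hHF hQ)).2.2 P hP (ov_symm h)
    · exact (mem_free.1 (hHF hP)).2.2 Q hQ
    · exact hH P hP Q hQ hPQ
  refine ⟨hno, ?_⟩
  have hdisj : Disjoint G H := by
    rw [Finset.disjoint_left]
    intro Q hQ hQ'
    exact (mem_free.1 (hHF hQ')).2.2 Q hQ (ov_self Q)
  have h1 := sum_le_area hno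
  rw [Finset.sum_union hdisj] at h1
  have h2 : ∑ Q ∈ G, ENNReal.ofReal (Q.s ^ 2) = ENNReal.ofReal (G.card * s ^ 2) := by
    rw [Finset.sum_congr rfl fun Q hQ => by rw [hGs Q hQ], Finset.sum_const,
      nsmul_eq_mul, ENNReal.ofReal_mul (by positivity), ENNReal.ofReal_natCast]
  have h3 : volume (Un H) ≤ ∑ Q ∈ H, ENNReal.ofReal (Q.s ^ 2) := by
    refine (measure_biUnion_finset_le _ _).trans (le_of_eq ?_)
    exact Finset.sum_congr rfl fun Q _ => volume_set Q
  have h4 : ENNReal.ofReal (G.card * s ^ 2) + volume (Un H) ≤ volume (Un (G ∪ H)) := by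
    rw [← h2]
    exact (add_le_add le_rfl h3).trans h1
  have h5 := ENNReal.toReal_mono (volume_ne_top _) h4
  rw [ENNReal.toReal_add ENNReal.ofReal_ne_top (volume_ne_top _),
    ENNReal.toReal_ofReal (by positivity)] at h5
  exact h5

end Pool.Agent.Helper19.Rado
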