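import Pool.Agent.Helper19.Rado.Blk

/-!
# Congruent squares
-/

open MeasureTheory Set
open scoped ENNReal NNReal

namespace Pool.Agent.Helper19.Rado

open Pool.Agent.Helper15.Rado

theorem exists_choice (F : Finset Sq) : ∃ ch : ℝ × ℝ → Sq, ∀ p ∈ Un F, ch p ∈ F ∧ p ∈ (ch p).set := by
  classical
  refine ⟨fun p => if h : ∃ Q ∈ F, p ∈ Q.set then h.choose else ⟨0, 0, 1, one_pos⟩, fun p hp => ?_⟩
  have h := mem_Un.1 hp
  simp only [dif_pos h]
  exact h.choose_spec

/-- congruent squares: a quarter, and the number of chosen squares can also be kept small -/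
theorem congruent {F : Finset Sq} {s : ℝ} (hs : 0 < s) (hF : ∀ Q ∈ F, Q.s = s) :
    (∃ G ⊆ F, No G ∧ area F / 4 ≤ G.card * s ^ 2) ∧
      ∃ G ⊆ F, No G ∧ G.card * s ^ 2 ≤ area F / 4 := by
  obtain ⟨ch, hch⟩ := exists_choice F
  have hcs : ∀ p ∈ Un F, (ch p).s = s := fun p hp => hF _ (hch p hp).1
  have hind : (Un F).indicator (fun p => ENNReal.ofReal ((ch p).s ^ 2))
      = (Un F).indicator (fun _ => ENNReal.ofReal (s ^ 2)) := by
    funext p
    by_cases hp : p ∈ Un F
    · rw [indicator_of_mem hp, indicator_of_mem hp, hcs p hp]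
    · rw [indicator_of_notMem hp, indicator_of_notMem hp]
  have hm : Measurable ((Un F).indicator (fun p => ENNReal.ofReal ((ch p).s ^ 2))) := by
    rw [hind]
    exact measurable_const.indicator (measurableSet_union F)
  have hint : ∫⁻ p, (Un F).indicator (fun p => ENNReal.ofReal ((ch p).s ^ 2)) p
      = ENNReal.ofReal (s ^ 2) * volume (Un F) := by
    rw [hind, lintegral_indicator (measurableSet_union F), setLIntegral_const]
  have hsum : ∀ G ⊆ F, ∑ Q ∈ G, ENNReal.ofReal (Q.s ^ 2) = ENNReal.ofReal (G.card * s ^ 2) := by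
    intro G hG
    rw [Finset.sum_congr rfl fun Q hQ => by rw [hF Q (hG hQ)], Finset.sum_const,
      nsmul_eq_mul, ENNReal.ofReal_mul (p := (G.card : ℝ)) (by positivity), ENNReal.ofReal_natCast]
  have hle : ∀ Q ∈ F, Q.s ≤ s := fun Q hQ => (hF Q hQ).le
  have hs2 : 0 < s ^ 2 := by positivity
  constructor
  · obtain ⟨u, hu⟩ := exists_ge (L := 2 * s) (by positivity) hm (by
      rw [hint]
      exact ENNReal.mul_ne_top ENNReal.ofReal_ne_top (volume_ne_top F))
    obtain ⟨G, hGF, hno, -, hG⟩ := select hs hle ch hch u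
    refine ⟨G, hGF, hno, ?_⟩
    rw [← hG, hsum G hGF, hint] at hu
    have h1 := ENNReal.toReal_mono (ENNReal.mul_ne_top ENNReal.ofReal_ne_top
      ENNReal.ofReal_ne_top) hu
    rw [ENNReal.toReal_mul, ENNReal.toReal_mul, ENNReal.toReal_ofReal (by positivity),
      ENNReal.toReal_ofReal (by positivity), ENNReal.toReal_ofReal (by positivity)] at h1
    change s ^ 2 * area F ≤ _ at h1
    have h2 : s ^ 2 * (area F / 4) ≤ s ^ 2 * (G.card * s ^ 2) := by nlinarith
    exact le_of_mul_le_mul_left h2 hs2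
  · obtain ⟨u, hu⟩ := exists_le (L := 2 * s) (by positivity) hm
    obtain ⟨G, hGF, hno, -, hG⟩ := select hs hle ch hch u
    refine ⟨G, hGF, hno, ?_⟩
    rw [← hG, hsum G hGF, hint] at hu
    have h1 := ENNReal.toReal_mono (ENNReal.mul_ne_top ENNReal.ofReal_ne_top
      (volume_ne_top F)) hu
    rw [ENNReal.toReal_mul, ENNReal.toReal_mul, ENNReal.toReal_ofReal (by positivity),
      ENNReal.toReal_ofReal (by positivity), ENNReal.toReal_ofReal (by positivity)] at h1
    change _ ≤ s ^ 2 * area F at h1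
    have h2 : s ^ 2 * (G.card * s ^ 2) ≤ s ^ 2 * (area F / 4) := by nlinarith
    exact le_of_mul_le_mul_left h2 hs2

theorem area_nonneg (F : Finset Sq) : 0 ≤ area F := ENNReal.toReal_nonneg

theorem card_le_area {G : Finset Sq} {s : ℝ} (h : No G) (hs : ∀ Q ∈ G, Q.s = s) :
    G.card * s ^ 2 ≤ area G := by
  have h1 := sum_le_area h
  rw [Finset.sum_congr rfl fun Q hQ => by rw [hs Q hQ], Finset.sum_const,
    nsmul_eq_mul] at h1
  have h2 := ENNReal.toReal_mono (volume_ne_top _) h1
  rw [ENNReal.toReal_mul, ENNReal.toReal_natCast, ENNReal.toReal_ofReal (by positivity)] at h2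
  exact h2

end Pool.Agent.Helper19.Rado
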