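import Pool.Agent.Helper19.Rado.Level
import Pool.Agent.Helper19.Rado.Cong

/-!
# Separated side lengths and two side lengths
-/

open MeasureTheory Set
open scoped ENNReal NNReal

namespace Pool.Agent.Helper19.Rado

open Pool.Agent.Helper15.Rado

theorem cover_reg {t : ℝ} {F L G : Finset Sq} (hF : ∀ K ∈ F, K ∈ L ∨ K.s ≤ t) :
    area F ≤ area (free t F G) + rg t L G := by
  have h1 : Un F ⊆ Un (free t F G) ∪ reg t L G := by
    intro p hp
    obtain ⟨K, hK, hpK⟩ := mem_Un.1 hp
    rcases hF K hK with hL | hKt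
    · exact Or.inr (Or.inl (mem_Un.2 ⟨K, hL, hpK⟩))
    · by_cases hfree : ∀ Q ∈ G, ¬ ov K Q
      · exact Or.inl (mem_Un.2 ⟨K, mem_free.2 ⟨hK, hKt, hfree⟩, hpK⟩)
      · push Not at hfree
        obtain ⟨Q, hQ, hov⟩ := hfree
        exact Or.inr (Or.inr (mem_iUnion₂.2 ⟨Q, hQ, mem_nb hKt hov hpK⟩))
  have h2 : volume (Un F) ≤ volume (Un (free t F G)) + volume (reg t L G) :=
    (measure_mono h1).trans (measure_union_le _ _)
  have h3 := ENNReal.toReal_mono (ENNReal.add_ne_top.2 ⟨volume_ne_top _, reg_ne_top _ _ _⟩) h2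
  rw [ENNReal.toReal_add (volume_ne_top _) (reg_ne_top _ _ _)] at h3
  exact h3

/-- separated side lengths -/
theorem separated' {μ : ℝ} (hμ : 0 < μ) (hμ1 : μ < 1) (F : Finset Sq)
    (hF : ∀ P ∈ F, ∀ Q ∈ F, P.s < Q.s → P.s ≤ μ * Q.s) :
    ∃ G ⊆ F, No G ∧ 1 / (4 + 2 * μ + 3 * μ ^ 2) * area F ≤ area G := by
  induction hn : F.card using Nat.strong_induction_on generalizing F with
  | _ n ih =>
    rcases F.eq_empty_or_nonempty with rfl | hne
    · refine ⟨∅, le_rfl, fun P hP => by simp at hP, ?_⟩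
      rw [area_empty]; simp
    · obtain ⟨Q₀, hQ₀, hmax⟩ := Finset.exists_max_image F (fun Q => Q.s) hne
      set s := Q₀.s with hsdef
      have hs : 0 < s := Q₀.pos
      set L := F.filter (fun Q => Q.s = s) with hL
      have hLF : L ⊆ F := Finset.filter_subset _ _
      have hLs : ∀ Q ∈ L, Q.s = s := fun Q hQ => (Finset.mem_filter.1 hQ).2
      set c := 1 / (4 + 2 * μ + 3 * μ ^ 2) with hcdef
      have hC : 0 < 4 + 2 * μ + 3 * μ ^ 2 := by positivity
      have hc0 : 0 < c := by positivity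
      have hc1 : c * (4 + 2 * μ + 3 * μ ^ 2) = 1 := by
        rw [hcdef]
        field_simp
      have hc2 : c * (6 * μ + 3 * μ ^ 2) ≤ 1 := by
        rw [← hc1]
        exact mul_le_mul_of_nonneg_left (by linarith) hc0.le
      obtain ⟨G, hGL, hGno, hGa⟩ := level hμ hμ1.le hs hc0.le hc2 L hLs
      rw [hc1, sub_self, zero_div, zero_mul, zero_add] at hGa
      have hGs : ∀ Q ∈ G, Q.s = s := fun Q hQ => hLs Q (hGL hQ)
      have hcov : ∀ K ∈ F, K ∈ L ∨ K.s ≤ μ * s := by
        intro K hK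
        rcases lt_or_eq_of_le (hmax K hK) with h | h
        · exact Or.inr (hF K hK Q₀ hQ₀ h)
        · exact Or.inl (Finset.mem_filter.2 ⟨hK, h⟩)
      have hF'F : free (μ * s) F G ⊆ F := fun K hK => (mem_free.1 hK).1
      have hcard : (free (μ * s) F G).card < n := by
        rw [← hn]
        refine Finset.card_lt_card ⟨hF'F, fun h => ?_⟩
        have h1 := (mem_free.1 (h hQ₀)).2.1
        have h2 : μ * s < s := by nlinarith
        linarith
      obtain ⟨H, hHF', hHno, hHa⟩ := ih (free (μ * s) F G).card hcard (free (μ * s) F G)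
        (fun P hP Q hQ h => hF P (hF'F hP) Q (hF'F hQ) h) rfl
      obtain ⟨hno, hunion⟩ := area_union hGno hGs hHno hHF'
      refine ⟨G ∪ H, ?_, hno, le_trans ?_ hunion⟩
      · exact Finset.union_subset (hGL.trans hLF) (hHF'.trans hF'F)
      · have hcv := cover_reg (G := G) hcov
        have h1 := mul_le_mul_of_nonneg_left hcv hc0.le
        linarith

/-- the first strategy for two side lengths -/
theorem two_first {a b ξ : ℝ} (hb : 0 < b) (hab : b ≤ a) (hξ : 0 ≤ ξ) (hξ4 : ξ ≤ 1 / 4)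
    (hξ1 : ξ * (6 * (b / a) + 3 * (b / a) ^ 2) ≤ 1) (F : Finset Sq)
    (hF : ∀ Q ∈ F, Q.s = a ∨ Q.s = b) :
    ∃ G ⊆ F, No G ∧ ξ * area F + (1 - ξ * (4 + 2 * (b / a) + 3 * (b / a) ^ 2)) / 4
      * area (F.filter (fun Q => Q.s = a)) ≤ area G := by
  have ha : 0 < a := hb.trans_le hab
  set μ := b / a with hμdef
  have hμ0 : 0 < μ := div_pos hb ha
  have hμ1 : μ ≤ 1 := (div_le_one ha).2 hab
  have hbμ : b = μ * a := by rw [hμdef]; field_simp
  set L := F.filter (fun Q => Q.s = a) with hL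
  have hLF : L ⊆ F := Finset.filter_subset _ _
  have hLs : ∀ Q ∈ L, Q.s = a := fun Q hQ => (Finset.mem_filter.1 hQ).2
  have hcov : ∀ K ∈ F, K ∈ L ∨ K.s ≤ b := by
    intro K hK
    rcases hF K hK with h | h
    · exact Or.inl (Finset.mem_filter.2 ⟨hK, h⟩)
    · exact Or.inr h.le
  obtain ⟨G, hGL, hGno, hGa⟩ := level hμ0 hμ1 ha hξ hξ1 L hLs
  rw [← hbμ] at hGa
  have hGs : ∀ Q ∈ G, Q.s = a := fun Q hQ => hLs Q (hGL hQ)
  have hfree : free b F G ⊆ F := fun K hK => (mem_free.1 hK).1
  have hfs : ∀ K ∈ free b F G, K.s = b := by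
    intro K hK
    obtain ⟨h1, h2, -⟩ := mem_free.1 hK
    rcases hF K h1 with h | h
    · rw [h] at h2 ⊢
      exact le_antisymm h2 hab
    · exact h
  obtain ⟨⟨H, hHF, hHno, hHa⟩, -⟩ := congruent hb hfs
  obtain ⟨hno, hunion⟩ := area_union hGno hGs hHno hHF
  refine ⟨G ∪ H, Finset.union_subset (hGL.trans hLF) (hHF.trans hfree), hno, le_trans ?_ hunion⟩
  have h1 := card_le_area hHno (fun Q hQ => hfs Q (hHF hQ))
  have h2 := cover_reg (G := G) hcov
  have h3 : 0 ≤ area (free b F G) := area_nonneg _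
  have h4 : ξ * area F ≤ ξ * (area (free b F G) + rg b L G) := mul_le_mul_of_nonneg_left h2 hξ
  have h5 : ξ * area (free b F G) ≤ 1 / 4 * area (free b F G) := mul_le_mul_of_nonneg_right hξ4 h3
  linarith

/-- only the small squares -/
theorem two_third {a b : ℝ} (hb : 0 < b) (F : Finset Sq) (hF : ∀ Q ∈ F, Q.s = a ∨ Q.s = b) :
    ∃ G ⊆ F, No G ∧ (area F - area (F.filter (fun Q => Q.s = a))) / 4 ≤ area G := by
  have hS : ∀ Q ∈ F.filter (fun Q => Q.s = b), Q.s = b := fun Q hQ => (Finset.mem_filter.1 hQ).2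
  obtain ⟨⟨H, hHF, hHno, hHa⟩, -⟩ := congruent hb hS
  refine ⟨H, hHF.trans (Finset.filter_subset _ _), hHno, ?_⟩
  have h1 := card_le_area hHno (fun Q hQ => hS Q (hHF hQ))
  have h2 : Un F ⊆ Un (F.filter (fun Q => Q.s = a)) ∪ Un (F.filter (fun Q => Q.s = b)) := by
    intro p hp
    obtain ⟨K, hK, hpK⟩ := mem_Un.1 hp
    rcases hF K hK with h | h
    · exact Or.inl (mem_Un.2 ⟨K, Finset.mem_filter.2 ⟨hK, h⟩, hpK⟩)
    · exact Or.inr (mem_Un.2 ⟨K, Finset.mem_filter.2 ⟨hK, h⟩, hpK⟩)
  have h3 := (measure_mono (μ := volume) h2).trans (measure_union_le _ _)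
  have h4 := ENNReal.toReal_mono (ENNReal.add_ne_top.2 ⟨volume_ne_top _, volume_ne_top _⟩) h3
  rw [ENNReal.toReal_add (volume_ne_top _) (volume_ne_top _)] at h4
  change area F ≤ area _ + area _ at h4
  linarith

/-- large squares at the lattice points covered by large squares, small ones at the others -/
theorem two_second {a b : ℝ} (hb : 0 < b) (hab : b ≤ a) (F : Finset Sq)
    (hF : ∀ Q ∈ F, Q.s = a ∨ Q.s = b) :
    ∃ G ⊆ F, No G ∧ ((1 - (b / a) ^ 2) * area (F.filter (fun Q => Q.s = a))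
      + (b / a) ^ 2 * area F) / 4 ≤ area G := by
  classical
  have ha : 0 < a := hb.trans_le hab
  set μ := b / a with hμdef
  have hμ0 : 0 < μ := div_pos hb ha
  have hbμ : b = μ * a := by rw [hμdef]; field_simp
  set L := F.filter (fun Q => Q.s = a) with hL
  have hLF : L ⊆ F := Finset.filter_subset _ _
  have hLs : ∀ Q ∈ L, Q.s = a := fun Q hQ => (Finset.mem_filter.1 hQ).2
  obtain ⟨c1, hc1⟩ := exists_choice L
  obtain ⟨c2, hc2⟩ := exists_choice F
  set ch : ℝ × ℝ → Sq := fun p => if p ∈ Un L then c1 p else c2 p with hch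
  have hchF : ∀ p ∈ Un F, ch p ∈ F ∧ p ∈ (ch p).set := by
    intro p hp
    by_cases h : p ∈ Un L
    · simp only [hch, if_pos h]
      exact ⟨hLF (hc1 p h).1, (hc1 p h).2⟩
    · simp only [hch, if_neg h]
      exact hc2 p hp
  have hchL : ∀ p ∈ Un L, (ch p).s = a := by
    intro p h
    simp only [hch, if_pos h]
    exact hLs _ (hc1 p h).1
  have hchV : ∀ p ∈ Un F, p ∉ Un L → (ch p).s = b := by
    intro p hp h
    have h1 := hchF p hp
    rcases hF _ h1.1 with h2 | h2
    · exact absurd (mem_Un.2 ⟨ch p, Finset.mem_filter.2 ⟨h1.1, h2⟩, h1.2⟩) h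
    · exact h2
  have hLsub : Un L ⊆ Un F := biUnion_subset_biUnion_left hLF
  have hind : (Un F).indicator (fun p => ENNReal.ofReal ((ch p).s ^ 2))
      = (Un L).indicator (fun _ => ENNReal.ofReal (a ^ 2))
        + (Un F \ Un L).indicator (fun _ => ENNReal.ofReal (b ^ 2)) := by
    funext p
    rw [Pi.add_apply]
    by_cases hp : p ∈ Un F
    · by_cases h : p ∈ Un L
      · rw [indicator_of_mem hp, indicator_of_mem h, indicator_of_notMem (fun h' => h'.2 h),
          hchL p h, add_zero]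
      · have h' : p ∈ Un F \ Un L := ⟨hp, h⟩
        rw [indicator_of_mem hp, indicator_of_notMem h, indicator_of_mem h', hchV p hp h, zero_add]
    · rw [indicator_of_notMem hp, indicator_of_notMem (fun h => hp (hLsub h)),
        indicator_of_notMem (fun h => hp h.1), add_zero]
  have hmL := measurableSet_union L
  have hmV : MeasurableSet (Un F \ Un L) := (measurableSet_union F).diff hmL
  have hm : Measurable ((Un F).indicator (fun p => ENNReal.ofReal ((ch p).s ^ 2))) := by
    rw [hind]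
    exact (measurable_const.indicator hmL).add (measurable_const.indicator hmV)
  obtain ⟨G, hGF, hno, -, hG⟩ := lattice_ge ha
    (fun Q hQ => by rcases hF Q hQ with h | h <;> linarith) ch hchF hm
  refine ⟨G, hGF, hno, ?_⟩
  rw [← lintegral_indicator (measurableSet_union F), hind] at hG
  simp only [Pi.add_apply] at hG
  rw [lintegral_add_left (measurable_const.indicator hmL), lintegral_indicator hmL,
    lintegral_indicator hmV, setLIntegral_const, setLIntegral_const] at hG
  have hvV : volume (Un F \ Un L) = volume (Un F) - volume (Un L) :=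
    measure_sdiff hLsub hmL.nullMeasurableSet (volume_ne_top L)
  have hle : volume (Un L) ≤ volume (Un F) := measure_mono hLsub
  have h1 := hG.trans (mul_le_mul_left (sum_le_area hno) _)
  have h2 := ENNReal.toReal_mono (ENNReal.mul_ne_top (volume_ne_top G) ENNReal.ofReal_ne_top) h1
  rw [ENNReal.toReal_add (ENNReal.mul_ne_top ENNReal.ofReal_ne_top (volume_ne_top L))
    (ENNReal.mul_ne_top ENNReal.ofReal_ne_top (by
      rw [hvV]; exact ENNReal.sub_ne_top (volume_ne_top F))), ENNReal.toReal_mul,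
    ENNReal.toReal_mul, ENNReal.toReal_mul, hvV, ENNReal.toReal_sub_of_le hle (volume_ne_top F),
    ENNReal.toReal_ofReal (by positivity), ENNReal.toReal_ofReal (by positivity),
    ENNReal.toReal_ofReal (by positivity)] at h2
  change a ^ 2 * area L + b ^ 2 * (area F - area L) ≤ area G * (2 * a) ^ 2 at h2
  have ha2 : 0 < a ^ 2 := by positivity
  refine le_of_mul_le_mul_left ?_ ha2
  rw [hbμ] at h2
  nlinarith

end Pool.Agent.Helper19.Rado
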