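import Pool.Agent.Helper19.Rado.Per

/-!
# One level: congruent squares, with a penalty for the neighbourhoods
-/

open MeasureTheory Set
open scoped ENNReal NNReal

namespace Pool.Agent.Helper19.Rado

open Pool.Agent.Helper15.Rado

/-- a measurable choice -/
theorem exists_choice_meas (F : Finset Sq) : ∃ ch : ℝ × ℝ → Sq,
    (∀ p ∈ Un F, ch p ∈ F ∧ p ∈ (ch p).set) ∧ ∀ K, MeasurableSet {p | p ∈ Un F ∧ ch p = K} := by
  classical
  induction F using Finset.induction_on with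
  | empty =>
    refine ⟨fun _ => ⟨0, 0, 1, one_pos⟩, fun p hp => ?_, fun K => ?_⟩
    · obtain ⟨Q, hQ, -⟩ := mem_Un.1 hp
      simp at hQ
    · have : {p : ℝ × ℝ | p ∈ Un ∅ ∧ (⟨0, 0, 1, one_pos⟩ : Sq) = K} = ∅ := by
        ext p
        simp
      rw [this]
      exact MeasurableSet.empty
  | insert Q F hQ ih =>
    obtain ⟨ch, h1, h2⟩ := ih
    refine ⟨fun p => if p ∈ Q.set then Q else ch p, fun p hp => ?_, fun K => ?_⟩
    · by_cases h : p ∈ Q.set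
      · simp only [if_pos h]
        exact ⟨Finset.mem_insert_self _ _, h⟩
      · simp only [if_neg h]
        have hpF : p ∈ Un F := by
          obtain ⟨K, hK, hpK⟩ := mem_Un.1 hp
          rcases Finset.mem_insert.1 hK with rfl | hK
          · exact absurd hpK h
          · exact mem_Un.2 ⟨K, hK, hpK⟩
        exact ⟨Finset.mem_insert_of_mem (h1 p hpF).1, (h1 p hpF).2⟩
    · have h3 : {p | p ∈ Un (insert Q F) ∧ (if p ∈ Q.set then Q else ch p) = K}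
          = (Q.set ∩ {_p | Q = K}) ∪ ({p | p ∈ Un F ∧ ch p = K} \ Q.set) := by
        ext p
        by_cases h : p ∈ Q.set
        · constructor
          · rintro ⟨-, h3⟩
            rw [if_pos h] at h3
            exact Or.inl ⟨h, h3⟩
          · rintro (⟨-, h3⟩ | ⟨-, h3⟩)
            · exact ⟨mem_Un.2 ⟨Q, Finset.mem_insert_self _ _, h⟩, by rw [if_pos h]; exact h3⟩
            · exact absurd h h3
        · constructor
          · rintro ⟨h4, h3⟩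
            rw [if_neg h] at h3
            refine Or.inr ⟨⟨?_, h3⟩, h⟩
            obtain ⟨K', hK', hpK'⟩ := mem_Un.1 h4
            rcases Finset.mem_insert.1 hK' with rfl | hK'
            · exact absurd hpK' h
            · exact mem_Un.2 ⟨K', hK', hpK'⟩
          · rintro (⟨h3, -⟩ | ⟨⟨h4, h3⟩, -⟩)
            · exact absurd h3 h
            · obtain ⟨K', hK', hpK'⟩ := mem_Un.1 h4
              exact ⟨mem_Un.2 ⟨K', Finset.mem_insert_of_mem hK', hpK'⟩, by rw [if_neg h]; exact h3⟩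
      rw [h3]
      exact ((measurableSet_set Q).inter (MeasurableSet.const _)).union
        ((h2 K).diff (measurableSet_set Q))

/-- the points with chosen square `K` -/
def cl (F : Finset Sq) (ch : ℝ × ℝ → Sq) (K : Sq) : Set (ℝ × ℝ) := {p | p ∈ Un F ∧ ch p = K}

/-- the points whose chosen square overlaps `Q` -/
def Bl (F : Finset Sq) (ch : ℝ × ℝ → Sq) (Q : Sq) : Set (ℝ × ℝ) := {p | p ∈ Un F ∧ ov Q (ch p)}

theorem measurableSet_Bl {F : Finset Sq} {ch : ℝ × ℝ → Sq}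
    (hch : ∀ p ∈ Un F, ch p ∈ F ∧ p ∈ (ch p).set) (hm : ∀ K, MeasurableSet (cl F ch K)) (Q : Sq) :
    MeasurableSet (Bl F ch Q) := by
  classical
  have h : Bl F ch Q = ⋃ K ∈ F.filter (fun K => ov Q K), cl F ch K := by
    ext p
    rw [mem_iUnion₂]
    constructor
    · rintro ⟨h1, h2⟩
      exact ⟨ch p, Finset.mem_filter.2 ⟨(hch p h1).1, h2⟩, h1, rfl⟩
    · rintro ⟨K, h2, h3, rfl⟩
      exact ⟨h3, (Finset.mem_filter.1 h2).2⟩
  rw [h]
  exact Finset.measurableSet_biUnion _ fun K _ => hm K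

theorem sqz_mem {μ q s k x : ℝ} (hμ : 0 < μ) (hμ1 : μ ≤ 1) (h1 : k < q + s) (h2 : q < k + s)
    (hx : x ∈ Icc k (k + s)) : sqz μ q s x ∈ Icc k (k + s) := by
  unfold sqz
  obtain ⟨h3, h4⟩ := hx
  split_ifs with h5 h6
  · constructor <;> nlinarith
  · exact ⟨h3, h4⟩
  · push Not at h5 h6
    constructor <;> nlinarith

theorem r_beta {μ s : ℝ} (hμ : 0 < μ) (hμ1 : μ ≤ 1) (hs : 0 < s) {F : Finset Sq}
    (hF : ∀ Q ∈ F, Q.s = s) {ch : ℝ × ℝ → Sq} (hch : ∀ p ∈ Un F, ch p ∈ F ∧ p ∈ (ch p).set)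
    (hm : ∀ K, MeasurableSet (cl F ch K)) {Q : Sq} (hQ : Q ∈ F) :
    ENNReal.ofReal ((1 + μ) ^ 2 * s ^ 2) ≤ volume (nb (μ * s) Q ∩ Un F)
      + ENNReal.ofReal μ * volume (box (2 * s) \ hit (2 * s) (Bl F ch Q)) := by
  have hQs := hF Q hQ
  refine (key_ineq (q := Q.x) (q' := Q.y) hμ hμ1 hs (measurableSet_Bl hch hm Q)
    (measurableSet_union F) ?_ ?_ ?_).trans (add_le_add (measure_mono ?_) le_rfl)
  · rintro p ⟨hp, hov⟩
    obtain ⟨hK, ⟨a1, a2⟩, ⟨a3, a4⟩⟩ := hch p hp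
    obtain ⟨⟨c1, c2⟩, ⟨c3, c4⟩⟩ := hov
    have hKs := hF _ hK
    rw [hKs] at a2 a4
    simp only [hQs, hKs] at c1 c2 c3 c4
    exact ⟨⟨by linarith, by linarith⟩, ⟨by linarith, by linarith⟩⟩
  · rintro p ⟨hp, hov⟩
    obtain ⟨hK, ⟨a1, a2⟩⟩ := hch p hp
    obtain ⟨⟨c1, c2⟩, ⟨c3, c4⟩⟩ := hov
    have hKs := hF _ hK
    rw [hKs] at a1 a2
    simp only [hQs, hKs] at c1 c2 c3 c4
    refine mem_Un.2 ⟨ch p, hK, ?_, ?_⟩
    · rw [hKs]
      exact sqz_mem hμ hμ1 (by linarith) (by linarith) a1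
    · rw [hKs]
      exact sqz_mem hμ hμ1 (by linarith) (by linarith) a2
  · rintro p ⟨⟨a1, a2⟩, ⟨a3, a4⟩⟩
    have hp : p ∈ Un F := mem_Un.2 ⟨Q, hQ, ⟨a1.le, by rw [hQs]; exact a2.le⟩,
      ⟨a3.le, by rw [hQs]; exact a4.le⟩⟩
    obtain ⟨hK, ⟨b1, b2⟩, ⟨b3, b4⟩⟩ := hch p hp
    refine ⟨hp, ⟨?_, ?_⟩, ⟨?_, ?_⟩⟩ <;> linarith
  · rintro p ⟨hp, ⟨a1, a2⟩, ⟨a3, a4⟩⟩
    refine ⟨⟨⟨a1.le, ?_⟩, ⟨a3.le, ?_⟩⟩, hp⟩ <;> rw [hQs] <;> linarith

theorem nb_ne_top (t : ℝ) (Q : Sq) : volume (nb t Q) ≠ ⊤ := by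
  rw [nb, Measure.volume_eq_prod, Measure.prod_prod, Real.volume_Icc, Real.volume_Icc]
  exact ENNReal.mul_ne_top ENNReal.ofReal_ne_top ENNReal.ofReal_ne_top

/-- the measure of the part of the neighbourhood outside the union -/
noncomputable def wt (t : ℝ) (F : Finset Sq) (Q : Sq) : ℝ := (volume (nb t Q \ Un F)).toReal

/-- the measure of the points of the box for which `Q` is blocked -/
noncomputable def bl (s : ℝ) (F : Finset Sq) (ch : ℝ × ℝ → Sq) (Q : Sq) : ℝ :=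
  (volume (box (2 * s) ∩ hit (2 * s) (Bl F ch Q))).toReal

theorem box_toReal {s : ℝ} (hs : 0 < s) : (volume (box (2 * s))).toReal = 4 * s ^ 2 := by
  rw [volume_box (by positivity), ENNReal.toReal_mul, ENNReal.toReal_ofReal (by positivity)]
  ring

theorem box_ne_top (s : ℝ) : volume (box s) ≠ ⊤ := by
  rw [box, Measure.volume_eq_prod, Measure.prod_prod, Real.volume_Ico]
  exact ENNReal.mul_ne_top ENNReal.ofReal_ne_top ENNReal.ofReal_ne_top

theorem bracket {μ s ξ : ℝ} (hμ : 0 < μ) (hμ1 : μ ≤ 1) (hs : 0 < s) (hξ : 0 ≤ ξ)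
    (hξ1 : ξ * (6 * μ + 3 * μ ^ 2) ≤ 1) {F : Finset Sq}
    (hF : ∀ Q ∈ F, Q.s = s) {ch : ℝ × ℝ → Sq} (hch : ∀ p ∈ Un F, ch p ∈ F ∧ p ∈ (ch p).set)
    (hm : ∀ K, MeasurableSet (cl F ch K)) {Q : Sq} (hQ : Q ∈ F) :
    0 ≤ s ^ 2 - ξ * wt (μ * s) F Q - (1 - ξ * (2 * μ + 3 * μ ^ 2)) / 4 * bl s F ch Q := by
  have hms : 0 < μ * s := by positivity
  have h1 := r_beta hμ hμ1 hs hF hch hm hQ
  have hH := measurableSet_hit (2 * s) (measurableSet_Bl hch hm Q)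
  -- the neighbourhood
  have h2 : (volume (nb (μ * s) Q ∩ Un F)).toReal + wt (μ * s) F Q = (s + 2 * (μ * s)) ^ 2 := by
    rw [wt, ← ENNReal.toReal_add (ne_top_of_le_ne_top (nb_ne_top _ _) (measure_mono inter_subset_left))
      (ne_top_of_le_ne_top (nb_ne_top _ _) (measure_mono sdiff_subset)),
      measure_inter_add_sdiff _ (measurableSet_union F), volume_nb hms.le, hF Q hQ,
      ENNReal.toReal_ofReal (by positivity)]
  -- the box
  have h3 : bl s F ch Q + (volume (box (2 * s) \ hit (2 * s) (Bl F ch Q))).toReal = 4 * s ^ 2 := by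
    rw [bl, ← ENNReal.toReal_add (ne_top_of_le_ne_top (box_ne_top _) (measure_mono inter_subset_left))
      (ne_top_of_le_ne_top (box_ne_top _) (measure_mono sdiff_subset)),
      measure_inter_add_sdiff _ hH, box_toReal hs]
  have hf1 : volume (nb (μ * s) Q ∩ Un F) ≠ ⊤ :=
    ne_top_of_le_ne_top (nb_ne_top _ _) (measure_mono inter_subset_left)
  have hf2 : volume (box (2 * s) \ hit (2 * s) (Bl F ch Q)) ≠ ⊤ :=
    ne_top_of_le_ne_top (box_ne_top _) (measure_mono sdiff_subset)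
  have h4 := ENNReal.toReal_mono (ENNReal.add_ne_top.2 ⟨hf1,
    ENNReal.mul_ne_top ENNReal.ofReal_ne_top hf2⟩) h1
  rw [ENNReal.toReal_add hf1 (ENNReal.mul_ne_top ENNReal.ofReal_ne_top hf2), ENNReal.toReal_mul,
    ENNReal.toReal_ofReal (by positivity), ENNReal.toReal_ofReal hμ.le] at h4
  set r := (volume (nb (μ * s) Q ∩ Un F)).toReal with hr
  set β := (volume (box (2 * s) \ hit (2 * s) (Bl F ch Q))).toReal with hβ
  have hβ0 : 0 ≤ β := ENNReal.toReal_nonneg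
  have e1 : bl s F ch Q = 4 * s ^ 2 - β := by linarith
  have e2 : wt (μ * s) F Q = (s + 2 * (μ * s)) ^ 2 - r := by linarith
  have e3 : wt (μ * s) F Q ≤ (2 * μ + 3 * μ ^ 2) * s ^ 2 + μ * β := by
    rw [e2]
    nlinarith
  have e4 : ξ * wt (μ * s) F Q ≤ ξ * ((2 * μ + 3 * μ ^ 2) * s ^ 2 + μ * β) :=
    mul_le_mul_of_nonneg_left e3 hξ
  rw [e1]
  have e5 : 0 ≤ (1 - ξ * (6 * μ + 3 * μ ^ 2)) * β := mul_nonneg (by linarith) hβ0
  nlinarith

theorem cl_subset {F : Finset Sq} {ch : ℝ × ℝ → Sq}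
    (hch : ∀ p ∈ Un F, ch p ∈ F ∧ p ∈ (ch p).set) (K : Sq) : cl F ch K ⊆ K.set := by
  rintro p ⟨hp, rfl⟩
  exact (hch p hp).2

theorem small {s : ℝ} (hs : 0 < s) {Q : Sq} (hQ : Q.s = s) {u : ℝ × ℝ} {z z' : ℤ × ℤ}
    (h1 : u + lp (2 * s) z ∈ Q.set) (h2 : u + lp (2 * s) z' ∈ Q.set) : z = z' := by
  by_contra h
  exact not_ov_of_lattice hs hQ.le hQ.le h h1 h2 (ov_self Q)

/-- the measure of the points with chosen square `K` -/
noncomputable def pt (F : Finset Sq) (ch : ℝ × ℝ → Sq) (K : Sq) : ℝ := (volume (cl F ch K)).toReal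

end Pool.Agent.Helper19.Rado
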