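import Pool.Agent.Helper15.Rado.Global

/-!
# Lattice selection of nonoverlapping squares

For a measurable function `w` on the plane and `L > 0`, the integral of `w` is the integral over
`u ∈ [0, L)²` of the sum of `w` over the lattice points `u + L ℤ²`.
-/

open MeasureTheory Set
open scoped ENNReal NNReal

namespace Pool.Agent.Helper19.Rado

open Pool.Agent.Helper15.Rado

/-- the half open box `[0, L)²` -/
def box (L : ℝ) : Set (ℝ × ℝ) := Ico 0 L ×ˢ Ico 0 L

theorem measurableSet_box (L : ℝ) : MeasurableSet (box L) := measurableSet_Ico.prod measurableSet_Ico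

theorem volume_box {L : ℝ} (hL : 0 < L) : volume (box L) = ENNReal.ofReal L * ENNReal.ofReal L := by
  rw [box, Measure.volume_eq_prod, Measure.prod_prod, Real.volume_Ico]
  simp

/-- the lattice point `(L i, L j)` -/
def lp (L : ℝ) (z : ℤ × ℤ) : ℝ × ℝ := (L * z.1, L * z.2)

theorem iUnion_box {L : ℝ} (hL : 0 < L) : (⋃ z : ℤ × ℤ, (fun p => p + lp L z) '' box L) = univ := by
  rw [eq_univ_iff_forall]
  rintro ⟨a, b⟩
  rw [mem_iUnion]
  refine ⟨(⌊a / L⌋, ⌊b / L⌋), (a - L * ⌊a / L⌋, b - L * ⌊b / L⌋), ⟨⟨?_, ?_⟩, ⟨?_, ?_⟩⟩, ?_⟩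
  · have := Int.floor_le (a / L)
    rw [le_div_iff₀ hL] at this
    show 0 ≤ a - L * ⌊a / L⌋
    linarith
  · have := Int.lt_floor_add_one (a / L)
    rw [div_lt_iff₀ hL] at this
    show a - L * ⌊a / L⌋ < L
    linarith
  · have := Int.floor_le (b / L)
    rw [le_div_iff₀ hL] at this
    show 0 ≤ b - L * ⌊b / L⌋
    linarith
  · have := Int.lt_floor_add_one (b / L)
    rw [div_lt_iff₀ hL] at this
    show b - L * ⌊b / L⌋ < L
    linarith
  · simp [lp]

theorem floor_unique {L : ℝ} (hL : 0 < L) {a x : ℝ} {i : ℤ} (hx : x ∈ Ico (0:ℝ) L)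
    (h : x + L * i = a) : i = ⌊a / L⌋ := by
  symm
  rw [Int.floor_eq_iff]
  constructor
  · rw [le_div_iff₀ hL]
    linarith [hx.1]
  · rw [div_lt_iff₀ hL]
    linarith [hx.2]

theorem pairwise_box {L : ℝ} (hL : 0 < L) :
    Pairwise (Function.onFun Disjoint fun z : ℤ × ℤ => (fun p => p + lp L z) '' box L) := by
  rintro ⟨i, j⟩ ⟨i', j'⟩ hne
  rw [Function.onFun, Set.disjoint_left]
  rintro ⟨a, b⟩ ⟨⟨x, y⟩, ⟨hx, hy⟩, h1⟩ ⟨⟨x', y'⟩, ⟨hx', hy'⟩, h2⟩
  simp only [lp, Prod.mk_add_mk, Prod.mk.injEq] at h1 h2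
  apply hne
  rw [floor_unique hL hx h1.1, floor_unique hL hy h1.2, floor_unique hL hx' h2.1,
    floor_unique hL hy' h2.2]

/-- unfolding -/
theorem lintegral_unfold {L : ℝ} (hL : 0 < L) {w : ℝ × ℝ → ℝ≥0∞} (hw : Measurable w) :
    ∫⁻ u in box L, ∑' z : ℤ × ℤ, w (u + lp L z) = ∫⁻ p, w p := by
  have hm' : ∀ z : ℤ × ℤ, AEMeasurable (fun u => w (u + lp L z)) (volume.restrict (box L)) :=
    fun z => (hw.comp (measurable_id.add_const (lp L z))).aemeasurable
  rw [lintegral_tsum hm']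
  have h1 : ∀ z : ℤ × ℤ, ∫⁻ u in box L, w (u + lp L z)
      = ∫⁻ p in (fun p => p + lp L z) '' box L, w p := by
    intro z
    have hm : MeasurePreserving (fun p : ℝ × ℝ => p + lp L z) volume volume :=
      measurePreserving_add_right volume _
    have he : MeasurableEmbedding (fun p : ℝ × ℝ => p + lp L z) :=
      measurableEmbedding_addRight _
    exact hm.setLIntegral_comp_emb he w (box L)
  simp only [h1]
  rw [← lintegral_iUnion (fun z => (measurableEmbedding_addRight _).measurableSet_image.2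
      (measurableSet_box L)) (pairwise_box hL), iUnion_box hL, Measure.restrict_univ]

theorem measurable_sum (L : ℝ) {w : ℝ × ℝ → ℝ≥0∞} (hw : Measurable w) :
    Measurable fun u => ∑' z : ℤ × ℤ, w (u + lp L z) :=
  Measurable.tsum fun z => hw.comp (measurable_id.add_const (lp L z))

/-- there is a translate of the lattice for which the sum is at least the mean value -/
theorem exists_ge {L : ℝ} (hL : 0 < L) {w : ℝ × ℝ → ℝ≥0∞} (hw : Measurable w)
    (hfin : ∫⁻ p, w p ≠ ⊤) :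
    ∃ u : ℝ × ℝ, ∫⁻ p, w p ≤ (∑' z : ℤ × ℤ, w (u + lp L z)) * ENNReal.ofReal (L ^ 2) := by
  have h0 : volume (box L) ≠ 0 := by
    rw [volume_box hL]
    simp [hL]
  have h1 : volume (box L) ≠ ⊤ := by
    rw [volume_box hL]
    exact ENNReal.mul_ne_top ENNReal.ofReal_ne_top ENNReal.ofReal_ne_top
  obtain ⟨u, -, hu⟩ := exists_setLAverage_le h0 (measurableSet_box L).nullMeasurableSet
    (f := fun u => ∑' z : ℤ × ℤ, w (u + lp L z)) (by rw [lintegral_unfold hL hw]; exact hfin)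
  refine ⟨u, ?_⟩
  rw [setLAverage_eq, lintegral_unfold hL hw, ENNReal.div_le_iff h0 h1, volume_box hL,
    ← ENNReal.ofReal_mul hL.le] at hu
  rw [pow_two]
  exact hu

/-- there is a translate of the lattice for which the sum is at most the mean value -/
theorem exists_le {L : ℝ} (hL : 0 < L) {w : ℝ × ℝ → ℝ≥0∞} (hw : Measurable w) :
    ∃ u : ℝ × ℝ, (∑' z : ℤ × ℤ, w (u + lp L z)) * ENNReal.ofReal (L ^ 2) ≤ ∫⁻ p, w p := by
  have h0 : volume (box L) ≠ 0 := by
    rw [volume_box hL]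
    simp [hL]
  have h1 : volume (box L) ≠ ⊤ := by
    rw [volume_box hL]
    exact ENNReal.mul_ne_top ENNReal.ofReal_ne_top ENNReal.ofReal_ne_top
  obtain ⟨u, -, hu⟩ := exists_le_setLAverage h0 h1 (measurable_sum L hw).aemeasurable
  refine ⟨u, ?_⟩
  rw [setLAverage_eq, lintegral_unfold hL hw, ENNReal.le_div_iff_mul_le (Or.inl h0) (Or.inl h1),
    volume_box hL, ← ENNReal.ofReal_mul hL.le] at hu
  rw [pow_two]
  exact hu

end Pool.Agent.Helper19.Rado
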