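import Pool.Agent.Helper19.Rado.Step

/-!
# One level: the theorem
-/

open MeasureTheory Set
open scoped ENNReal NNReal

namespace Pool.Agent.Helper19.Rado

open Pool.Agent.Helper15.Rado

/-- the union of `F` and of the neighbourhoods of the members of `G` -/
def reg (t : ℝ) (F G : Finset Sq) : Set (ℝ × ℝ) := Un F ∪ ⋃ Q ∈ G, nb t Q

/-- its measure -/
noncomputable def rg (t : ℝ) (F G : Finset Sq) : ℝ := (volume (reg t F G)).toReal

theorem reg_ne_top (t : ℝ) (F G : Finset Sq) : volume (reg t F G) ≠ ⊤ := by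
  refine ne_top_of_le_ne_top ?_ (measure_union_le _ _)
  refine ENNReal.add_ne_top.2 ⟨volume_ne_top F, ?_⟩
  refine ne_top_of_le_ne_top ?_ (measure_biUnion_finset_le _ _)
  exact ENNReal.sum_ne_top.2 fun Q _ => nb_ne_top t Q

theorem measurableSet_nb (t : ℝ) (Q : Sq) : MeasurableSet (nb t Q) :=
  measurableSet_Icc.prod measurableSet_Icc

theorem measurableSet_reg (t : ℝ) (F G : Finset Sq) : MeasurableSet (reg t F G) :=
  (measurableSet_union F).union (Finset.measurableSet_biUnion _ fun Q _ => measurableSet_nb t Q)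

theorem rg_le (t : ℝ) (F G : Finset Sq) : rg t F G ≤ area F + ∑ K ∈ G, wt t F K := by
  have h1 : reg t F G ⊆ Un F ∪ ⋃ Q ∈ G, (nb t Q \ Un F) := by
    rintro p (hp | hp)
    · exact Or.inl hp
    · by_cases h : p ∈ Un F
      · exact Or.inl h
      · obtain ⟨Q, hQ, hpQ⟩ := mem_iUnion₂.1 hp
        exact Or.inr (mem_iUnion₂.2 ⟨Q, hQ, hpQ, h⟩)
  have h2 : ∀ Q ∈ G, volume (nb t Q \ Un F) ≠ ⊤ := fun Q _ =>
    ne_top_of_le_ne_top (nb_ne_top t Q) (measure_mono sdiff_subset)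
  have h3 : volume (reg t F G) ≤ volume (Un F) + ∑ Q ∈ G, volume (nb t Q \ Un F) :=
    (measure_mono h1).trans ((measure_union_le _ _).trans
      (add_le_add le_rfl (measure_biUnion_finset_le _ _)))
  have h4 := ENNReal.toReal_mono (ENNReal.add_ne_top.2 ⟨volume_ne_top F, ENNReal.sum_ne_top.2 h2⟩) h3
  rw [ENNReal.toReal_add (volume_ne_top F) (ENNReal.sum_ne_top.2 h2), ENNReal.toReal_sum h2] at h4
  exact h4

/-- the members of `F` which do not overlap any member of `G` -/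
noncomputable def fr (F G : Finset Sq) : Finset Sq := by
  classical
  exact F.filter fun K => ∀ Q ∈ G, ¬ ov K Q

theorem mem_fr {F G : Finset Sq} {K : Sq} : K ∈ fr F G ↔ K ∈ F ∧ ∀ Q ∈ G, ¬ ov K Q := by
  classical
  unfold fr
  rw [Finset.mem_filter]

theorem rg_union (t : ℝ) (F G H : Finset Sq) :
    rg t F (G ∪ H) + area (fr F G) ≤ rg t F G + rg t (fr F G) H := by
  have hsub : Un (fr F G) ⊆ Un F := by
    intro p hp
    obtain ⟨Q, hQ, hpQ⟩ := mem_Un.1 hp
    exact mem_Un.2 ⟨Q, (mem_fr.1 hQ).1, hpQ⟩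
  have h1 : reg t F (G ∪ H) ⊆ reg t F G ∪ reg t (fr F G) H := by
    rintro p (hp | hp)
    · exact Or.inl (Or.inl hp)
    · obtain ⟨Q, hQ, hpQ⟩ := mem_iUnion₂.1 hp
      rcases Finset.mem_union.1 hQ with hQ | hQ
      · exact Or.inl (Or.inr (mem_iUnion₂.2 ⟨Q, hQ, hpQ⟩))
      · exact Or.inr (Or.inr (mem_iUnion₂.2 ⟨Q, hQ, hpQ⟩))
  have h2 : Un (fr F G) ⊆ reg t F G ∩ reg t (fr F G) H :=
    fun p hp => ⟨Or.inl (hsub hp), Or.inl hp⟩
  have h3 := measure_union_add_inter (μ := volume) (reg t F G) (measurableSet_reg t (fr F G) H)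
  have h4 : volume (reg t F (G ∪ H)) + volume (Un (fr F G))
      ≤ volume (reg t F G) + volume (reg t (fr F G) H) := by
    rw [← h3]
    exact add_le_add (measure_mono h1) (measure_mono h2)
  have h5 := ENNReal.toReal_mono (ENNReal.add_ne_top.2 ⟨reg_ne_top _ _ _, reg_ne_top _ _ _⟩) h4
  rw [ENNReal.toReal_add (reg_ne_top _ _ _) (volume_ne_top _),
    ENNReal.toReal_add (reg_ne_top _ _ _) (reg_ne_top _ _ _)] at h5
  exact h5

theorem area_le_met {F G : Finset Sq} {ch : ℝ × ℝ → Sq}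
    (hch : ∀ p ∈ Un F, ch p ∈ F ∧ p ∈ (ch p).set) :
    area F ≤ area (fr F G) + ∑ K ∈ met F G, pt F ch K := by
  have h1 : Un F ⊆ Un (fr F G) ∪ ⋃ K ∈ met F G, cl F ch K := by
    intro p hp
    obtain ⟨hK, hpK⟩ := hch p hp
    by_cases h : ∃ Q ∈ G, ov (ch p) Q
    · exact Or.inr (mem_iUnion₂.2 ⟨ch p, mem_met.2 ⟨hK, h⟩, hp, rfl⟩)
    · push Not at h
      exact Or.inl (mem_Un.2 ⟨ch p, mem_fr.2 ⟨hK, h⟩, hpK⟩)
  have h2 : ∀ K ∈ met F G, volume (cl F ch K) ≠ ⊤ := fun K _ =>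
    ne_top_of_le_ne_top (volume_ne_top F) (measure_mono fun p hp => hp.1)
  have h3 : volume (Un F) ≤ volume (Un (fr F G)) + ∑ K ∈ met F G, volume (cl F ch K) :=
    (measure_mono h1).trans ((measure_union_le _ _).trans
      (add_le_add le_rfl (measure_biUnion_finset_le _ _)))
  have h4 := ENNReal.toReal_mono (ENNReal.add_ne_top.2 ⟨volume_ne_top _, ENNReal.sum_ne_top.2 h2⟩) h3
  rw [ENNReal.toReal_add (volume_ne_top _) (ENNReal.sum_ne_top.2 h2), ENNReal.toReal_sum h2] at h4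
  exact h4

theorem area_empty : area (∅ : Finset Sq) = 0 := by simp [area]

/-- congruent squares, with a penalty for the neighbourhoods -/
theorem level {μ s ξ : ℝ} (hμ : 0 < μ) (hμ1 : μ ≤ 1) (hs : 0 < s) (hξ : 0 ≤ ξ)
    (hξ1 : ξ * (6 * μ + 3 * μ ^ 2) ≤ 1) (F : Finset Sq) (hF : ∀ Q ∈ F, Q.s = s) :
    ∃ G ⊆ F, No G ∧
      (1 - ξ * (4 + 2 * μ + 3 * μ ^ 2)) / 4 * area F + ξ * rg (μ * s) F G ≤ G.card * s ^ 2 := by
  classical
  induction hn : F.card using Nat.strong_induction_on generalizing F with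
  | _ n ih =>
    rcases F.eq_empty_or_nonempty with rfl | hne
    · refine ⟨∅, le_rfl, fun P hP => by simp at hP, ?_⟩
      have : rg (μ * s) ∅ ∅ = 0 := by simp [rg, reg, Un]
      rw [this, area_empty]
      simp
    · obtain ⟨ch, hch, hm⟩ := exists_choice_meas F
      obtain ⟨G, hGF, hGne, hGno, hG⟩ := step hμ hμ1 hs hξ hξ1 hF hne hch hm
      obtain ⟨K₀, hK₀⟩ := hGne
      have hfrF : fr F G ⊆ F := fun K hK => (mem_fr.1 hK).1
      have hcard : (fr F G).card < n := by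
        rw [← hn]
        exact Finset.card_lt_card ⟨hfrF, fun h => (mem_fr.1 (h (hGF hK₀))).2 K₀ hK₀ (ov_self K₀)⟩
      obtain ⟨H, hHF, hHno, hH⟩ := ih (fr F G).card hcard (fr F G) (fun Q hQ => hF Q (hfrF hQ)) rfl
      have hdisj : Disjoint G H := by
        rw [Finset.disjoint_left]
        intro Q hQ hQ'
        exact (mem_fr.1 (hHF hQ')).2 Q hQ (ov_self Q)
      refine ⟨G ∪ H, Finset.union_subset hGF (hHF.trans hfrF), ?_, ?_⟩
      · intro P hP Q hQ hPQ
        rw [Finset.mem_union] at hP hQ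
        rcases hP with hP | hP <;> rcases hQ with hQ | hQ
        · exact hGno P hP Q hQ hPQ
        · exact fun h => (mem_fr.1 (hHF hQ)).2 P hP (ov_symm h)
        · exact (mem_fr.1 (hHF hP)).2 Q hQ
        · exact hHno P hP Q hQ hPQ
      · rw [Finset.card_union_of_disjoint hdisj]
        push_cast
        have e1 := rg_union (μ * s) F G H
        have e2 := rg_le (μ * s) F G
        have e3 := area_le_met (G := G) hch
        rw [Finset.sum_sub_distrib, Finset.sum_const, nsmul_eq_mul, ← Finset.mul_sum] at hG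
        set a := area F
        set a' := area (fr F G)
        set W := ∑ K ∈ G, wt (μ * s) F K
        set Pm := ∑ K ∈ met F G, pt F ch K
        have hη0 : 0 ≤ (1 - ξ * (2 * μ + 3 * μ ^ 2)) / 4 := by
          have : 0 ≤ ξ * μ := mul_nonneg hξ hμ.le
          nlinarith
        have f1 : ξ * (rg (μ * s) F (G ∪ H) + a') ≤ ξ * ((a + W) + rg (μ * s) (fr F G) H) :=
          mul_le_mul_of_nonneg_left (by linarith) hξ
        have f2 : (1 - ξ * (2 * μ + 3 * μ ^ 2)) / 4 * a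
            ≤ (1 - ξ * (2 * μ + 3 * μ ^ 2)) / 4 * (a' + Pm) := mul_le_mul_of_nonneg_left e3 hη0
        nlinarith

end Pool.Agent.Helper19.Rado
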