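import Pool.Agent.Helper19.Rado.Sub

/-!
# Periodic sets and functions
-/

open MeasureTheory Set
open scoped ENNReal NNReal

namespace Pool.Agent.Helper19.Rado

open Pool.Agent.Helper15.Rado

/-- the points which are congruent to a point of `E` modulo the lattice -/
def hit (L : ℝ) (E : Set (ℝ × ℝ)) : Set (ℝ × ℝ) := {u | ∃ z : ℤ × ℤ, u + lp L z ∈ E}

theorem measurableSet_hit (L : ℝ) {E : Set (ℝ × ℝ)} (hE : MeasurableSet E) :
    MeasurableSet (hit L E) := by
  have h : hit L E = ⋃ z : ℤ × ℤ, (fun u => u + lp L z) ⁻¹' E := by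
    ext u
    simp [hit]
  rw [h]
  exact MeasurableSet.iUnion fun z => (measurable_id.add_const _) hE

theorem hit_mono {L : ℝ} {E E' : Set (ℝ × ℝ)} (h : E ⊆ E') : hit L E ⊆ hit L E' :=
  fun _ ⟨z, hz⟩ => ⟨z, h hz⟩

theorem lp_add (L : ℝ) (z z' : ℤ × ℤ) : lp L z + lp L z' = lp L (z + z') := by
  simp only [lp, Prod.mk_add_mk, Prod.fst_add, Prod.snd_add]
  push_cast
  ring_nf

theorem lp_neg (L : ℝ) (z : ℤ × ℤ) : lp L (-z) = -lp L z := by
  simp [lp]

theorem hit_add {L : ℝ} {E : Set (ℝ × ℝ)} {u : ℝ × ℝ} (z : ℤ × ℤ) :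
    u + lp L z ∈ hit L E ↔ u ∈ hit L E := by
  constructor
  · rintro ⟨z', h⟩
    exact ⟨z + z', by rwa [← lp_add, ← add_assoc]⟩
  · rintro ⟨z', h⟩
    refine ⟨-z + z', ?_⟩
    rw [← lp_add, lp_neg]
    have : u + lp L z + (-lp L z + lp L z') = u + lp L z' := by abel
    rwa [this]

/-- the integral of a periodic function over the points of the box which are congruent to a point
of `E` is at most its integral over `E` -/
theorem lintegral_hit_le {L : ℝ} (hL : 0 < L) {J : ℝ × ℝ → ℝ≥0∞} (hJ : Measurable J)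
    (hper : ∀ u z, J (u + lp L z) = J u) {E : Set (ℝ × ℝ)} (hE : MeasurableSet E) :
    ∫⁻ u in box L ∩ hit L E, J u ≤ ∫⁻ p in E, J p := by
  rw [← lintegral_indicator hE, ← lintegral_unfold hL (hJ.indicator hE), inter_comm,
    ← setLIntegral_indicator (measurableSet_hit L hE)]
  refine lintegral_mono fun u => ?_
  by_cases hu : u ∈ hit L E
  · rw [indicator_of_mem hu]
    obtain ⟨z, hz⟩ := hu
    refine le_trans (le_of_eq ?_) (ENNReal.le_tsum z)
    rw [indicator_of_mem hz, hper]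
  · rw [indicator_of_notMem hu]
    exact zero_le

/-- a set of diameter less than the mesh -/
theorem volume_hit {L : ℝ} (hL : 0 < L) {E : Set (ℝ × ℝ)} (hE : MeasurableSet E)
    (hsmall : ∀ u z z', u + lp L z ∈ E → u + lp L z' ∈ E → z = z') :
    volume (box L ∩ hit L E) = volume E := by
  have h1 : volume E = ∫⁻ p, E.indicator (fun _ => (1 : ℝ≥0∞)) p := by
    rw [lintegral_indicator hE, setLIntegral_one]
  have h2 : volume (box L ∩ hit L E) = ∫⁻ u in box L, (hit L E).indicator (fun _ => (1 : ℝ≥0∞)) u := by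
    rw [setLIntegral_indicator (measurableSet_hit L hE), setLIntegral_one, inter_comm]
  rw [h1, h2, ← lintegral_unfold hL (measurable_const.indicator hE)]
  refine lintegral_congr fun u => ?_
  by_cases hu : u ∈ hit L E
  · rw [indicator_of_mem hu]
    obtain ⟨z, hz⟩ := hu
    rw [tsum_eq_single z]
    · rw [indicator_of_mem hz]
    · intro z' hz'
      exact indicator_of_notMem (fun h => hz' (hsmall u z' z h hz)) _
  · rw [indicator_of_notMem hu]
    symm
    rw [ENNReal.tsum_eq_zero]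
    intro z
    exact indicator_of_notMem (fun h => hu ⟨z, h⟩) _

/-- the translate of the box with lower left corner `c` -/
def bx (c : ℝ × ℝ) (L : ℝ) : Set (ℝ × ℝ) := Ico c.1 (c.1 + L) ×ˢ Ico c.2 (c.2 + L)

theorem measurableSet_bx (c : ℝ × ℝ) (L : ℝ) : MeasurableSet (bx c L) :=
  measurableSet_Ico.prod measurableSet_Ico

theorem exists_unique_bx {L : ℝ} (hL : 0 < L) (c u : ℝ × ℝ) :
    ∃ z : ℤ × ℤ, u + lp L z ∈ bx c L ∧ ∀ z', u + lp L z' ∈ bx c L → z' = z := by
  have h := iUnion_box hL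
  rw [eq_univ_iff_forall] at h
  obtain ⟨z, ⟨b, ⟨⟨hb1, hb2⟩, ⟨hb3, hb4⟩⟩, hz⟩⟩ := mem_iUnion.1 (h (u - c))
  have hz1 : b.1 + L * z.1 = u.1 - c.1 := by
    have := congrArg Prod.fst hz
    simpa [lp] using this
  have hz2 : b.2 + L * z.2 = u.2 - c.2 := by
    have := congrArg Prod.snd hz
    simpa [lp] using this
  refine ⟨-z, ⟨⟨?_, ?_⟩, ⟨?_, ?_⟩⟩, ?_⟩
  · simp only [lp, Prod.fst_add, Prod.fst_neg]
    push_cast
    linarith
  · simp only [lp, Prod.fst_add, Prod.fst_neg]
    push_cast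
    linarith
  · simp only [lp, Prod.snd_add, Prod.snd_neg]
    push_cast
    linarith
  · simp only [lp, Prod.snd_add, Prod.snd_neg]
    push_cast
    linarith
  · rintro z' ⟨⟨h1, h2⟩, ⟨h3, h4⟩⟩
    simp only [lp, Prod.fst_add, Prod.snd_add] at h1 h2 h3 h4
    have e1 : -z'.1 = ⌊(u.1 - c.1) / L⌋ := by
      refine floor_unique hL (x := u.1 + L * z'.1 - c.1) ⟨by linarith, by linarith⟩ ?_
      push_cast
      ring
    have e2 : -z'.2 = ⌊(u.2 - c.2) / L⌋ := by
      refine floor_unique hL (x := u.2 + L * z'.2 - c.2) ⟨by linarith, by linarith⟩ ?_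
      push_cast
      ring
    have e3 : z.1 = ⌊(u.1 - c.1) / L⌋ := floor_unique hL ⟨hb1, hb2⟩ hz1
    have e4 : z.2 = ⌊(u.2 - c.2) / L⌋ := floor_unique hL ⟨hb3, hb4⟩ hz2
    refine Prod.ext ?_ ?_
    · rw [Prod.fst_neg, e3, ← e1, neg_neg]
    · rw [Prod.snd_neg, e4, ← e2, neg_neg]

/-- the integral of a periodic function over a translate of the box -/
theorem lintegral_bx {L : ℝ} (hL : 0 < L) {J : ℝ × ℝ → ℝ≥0∞} (hJ : Measurable J)
    (hper : ∀ u z, J (u + lp L z) = J u) (c : ℝ × ℝ) :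
    ∫⁻ u in bx c L, J u = ∫⁻ u in box L, J u := by
  have hB := measurableSet_bx c L
  rw [← lintegral_indicator hB, ← lintegral_unfold hL (hJ.indicator hB)]
  refine lintegral_congr fun u => ?_
  obtain ⟨z, hz, huniq⟩ := exists_unique_bx hL c u
  rw [tsum_eq_single z]
  · rw [indicator_of_mem hz, hper]
  · intro z' hz'
    exact indicator_of_notMem (fun h => hz' (huniq z' h)) _

theorem den_per {μ q s : ℝ} (hs : 0 < s) (q' : ℝ) (u : ℝ × ℝ) (z : ℤ × ℤ) :
    den μ q s (u + lp (2 * s) z).1 * den μ q' s (u + lp (2 * s) z).2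
      = den μ q s u.1 * den μ q' s u.2 := by
  simp only [lp, Prod.fst_add, Prod.snd_add]
  rw [den_add hs, den_add hs]

theorem measurable_dd (μ q q' s : ℝ) :
    Measurable fun u : ℝ × ℝ => den μ q s u.1 * den μ q' s u.2 :=
  ((measurable_den μ q s).comp measurable_fst).mul ((measurable_den μ q' s).comp measurable_snd)

theorem den_int {μ q s : ℝ} (hμ : 0 < μ) (hs : 0 < s) :
    ∫⁻ x in Ico (q - s) (q - s + 2 * s), den μ q s x = ENNReal.ofReal ((1 + μ) * s) := by
  have hI : Ico (q - s) (q - s + 2 * s) = Icc (q - s) q ∪ Ioo q (q + s) := by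
    ext x
    simp only [mem_Ico, mem_union, mem_Icc, mem_Ioo]
    constructor
    · rintro ⟨h1, h2⟩
      rcases le_or_gt x q with h | h
      · exact Or.inl ⟨h1, h⟩
      · exact Or.inr ⟨h, by linarith⟩
    · rintro (⟨h1, h2⟩ | ⟨h1, h2⟩)
      · exact ⟨h1, by linarith⟩
      · exact ⟨by linarith, by linarith⟩
  have hd : Disjoint (Icc (q - s) q) (Ioo q (q + s)) := by
    rw [Set.disjoint_left]
    rintro x ⟨-, h1⟩ ⟨h2, -⟩
    linarith
  rw [hI, lintegral_union measurableSet_Ioo hd,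
    setLIntegral_congr_fun (g := fun _ => ENNReal.ofReal μ) measurableSet_Icc
      (fun x hx => den_left hs hx),
    setLIntegral_congr_fun (g := fun _ => (1 : ℝ≥0∞)) measurableSet_Ioo (fun x hx => den_one hs hx),
    setLIntegral_const, setLIntegral_one, Real.volume_Icc, Real.volume_Ioo,
    ← ENNReal.ofReal_mul hμ.le, ← ENNReal.ofReal_add (mul_nonneg hμ.le (by linarith)) (by linarith)]
  congr 1
  ring

theorem den_box {μ s : ℝ} (q q' : ℝ) (hμ : 0 < μ) (hs : 0 < s) :
    ∫⁻ u in box (2 * s), den μ q s u.1 * den μ q' s u.2 = ENNReal.ofReal ((1 + μ) ^ 2 * s ^ 2) := by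
  rw [← lintegral_bx (by positivity) (measurable_dd μ q q' s)
    (fun u z => den_per hs q' u z) (q - s, q' - s), bx, Measure.volume_eq_prod,
    ← Measure.prod_restrict, lintegral_prod_mul (measurable_den μ q s).aemeasurable
      (measurable_den μ q' s).aemeasurable]
  simp only
  rw [den_int hμ hs, den_int hμ hs, ← ENNReal.ofReal_mul (by positivity)]
  congr 1
  ring

/-- the key inequality: `E` a set of points of `U` around the square `[q, q + s] × [q', q' + s]`
which is mapped into `U` by the squeeze map, and which contains the open square -/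
theorem key_ineq {μ q q' s : ℝ} (hμ : 0 < μ) (hμ1 : μ ≤ 1) (hs : 0 < s) {E U : Set (ℝ × ℝ)}
    (hE : MeasurableSet E) (hU : MeasurableSet U)
    (hEB : E ⊆ Ioo (q - s) (q + 2 * s) ×ˢ Ioo (q' - s) (q' + 2 * s))
    (hEU : ∀ p ∈ E, (sqz μ q s p.1, sqz μ q' s p.2) ∈ U)
    (hQE : Ioo q (q + s) ×ˢ Ioo q' (q' + s) ⊆ E) :
    ENNReal.ofReal ((1 + μ) ^ 2 * s ^ 2) ≤
      volume (U ∩ Ioo (q - μ * s) (q + s + μ * s) ×ˢ Ioo (q' - μ * s) (q' + s + μ * s))
        + ENNReal.ofReal μ * volume (box (2 * s) \ hit (2 * s) E) := by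
  have hL : 0 < 2 * s := by positivity
  have hH := measurableSet_hit (2 * s) hE
  have hJ := measurable_dd μ q q' s
  have h1 := squeeze_two hμ hs hE hU hEB hEU
  have h2 := lintegral_hit_le hL hJ (fun u z => den_per hs q' u z) hE
  have h3 : ∫⁻ u in box (2 * s) \ hit (2 * s) E, den μ q s u.1 * den μ q' s u.2
      ≤ ENNReal.ofReal μ * volume (box (2 * s) \ hit (2 * s) E) := by
    rw [← setLIntegral_const]
    refine setLIntegral_mono' ((measurableSet_box _).diff hH) fun u hu => ?_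
    obtain ⟨z, ⟨⟨a1, a2⟩, ⟨a3, a4⟩⟩, -⟩ := exists_unique_bx hL (q - s, q' - s) u
    have hnot : u + lp (2 * s) z ∉ Ioo q (q + s) ×ˢ Ioo q' (q' + s) :=
      fun h => hu.2 ⟨z, hQE h⟩
    rw [← den_per hs q' u z]
    simp only at a1 a2 a3 a4
    set v := u + lp (2 * s) z with hv
    by_cases hv1 : q < v.1
    · by_cases hv2 : q' < v.2
      · exact absurd ⟨⟨hv1, by linarith⟩, ⟨hv2, by linarith⟩⟩ hnot
      · push Not at hv2
        rw [den_left hs (x := v.2) ⟨a3, hv2⟩]
        calc den μ q s v.1 * ENNReal.ofReal μ ≤ 1 * ENNReal.ofReal μ :=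
              mul_le_mul_left (den_le hμ1) _
          _ = ENNReal.ofReal μ := one_mul _
    · push Not at hv1
      rw [den_left hs (x := v.1) ⟨a1, hv1⟩]
      calc ENNReal.ofReal μ * den μ q' s v.2 ≤ ENNReal.ofReal μ * 1 :=
            mul_le_mul_right (den_le hμ1) _
        _ = ENNReal.ofReal μ := mul_one _
  rw [← den_box q q' hμ hs]
  calc ∫⁻ u in box (2 * s), den μ q s u.1 * den μ q' s u.2
      = (∫⁻ u in box (2 * s) ∩ hit (2 * s) E, den μ q s u.1 * den μ q' s u.2)
        + ∫⁻ u in box (2 * s) \ hit (2 * s) E, den μ q s u.1 * den μ q' s u.2 :=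
        (lintegral_inter_add_sdiff _ _ hH).symm
    _ ≤ _ := add_le_add (h2.trans h1) h3

end Pool.Agent.Helper19.Rado
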