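import Pool.Agent.Helper19.Rado.Lat

/-!
# Selection of squares containing the points of a lattice
-/

open MeasureTheory Set
open scoped ENNReal NNReal

namespace Pool.Agent.Helper19.Rado

open Pool.Agent.Helper15.Rado

/-- the union of a family -/
abbrev Un (F : Finset Sq) : Set (ℝ × ℝ) := ⋃ Q ∈ F, Q.set

/-- pairwise nonoverlapping -/
def No (G : Finset Sq) : Prop := ∀ P ∈ G, ∀ Q ∈ G, P ≠ Q → ¬ ov P Q

theorem No.nonOv {G : Finset Sq} (h : No G) : NonOv G :=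
  fun P hP Q hQ hPQ => disjoint_of_not_ov (h P hP Q hQ hPQ)

theorem mem_Un {F : Finset Sq} {p : ℝ × ℝ} : p ∈ Un F ↔ ∃ Q ∈ F, p ∈ Q.set := by
  simp [Un]

/-- squares of side at most `s` around two different points of a lattice with mesh `2 s` do not
overlap -/
theorem not_ov_of_lattice {s : ℝ} (hs : 0 < s) {P Q : Sq} (hP : P.s ≤ s) (hQ : Q.s ≤ s)
    {u : ℝ × ℝ} {z z' : ℤ × ℤ} (hz : z ≠ z') (h1 : u + lp (2 * s) z ∈ P.set)
    (h2 : u + lp (2 * s) z' ∈ Q.set) : ¬ ov P Q := by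
  obtain ⟨⟨a1, a2⟩, ⟨a3, a4⟩⟩ := h1
  obtain ⟨⟨b1, b2⟩, ⟨b3, b4⟩⟩ := h2
  simp only [lp, Prod.fst_add, Prod.snd_add] at a1 a2 a3 a4 b1 b2 b3 b4
  rintro ⟨⟨c1, c2⟩, ⟨c3, c4⟩⟩
  apply hz
  have key : ∀ i j : ℤ, |2 * s * (i : ℝ) - 2 * s * (j : ℝ)| < 2 * s → i = j := by
    intro i j h
    rw [← mul_sub, abs_mul, abs_of_pos (by positivity)] at h
    have h3 : |(i : ℝ) - j| < 1 := by
      by_contra hcon
      push Not at hcon
      nlinarith
    have h4 : |i - j| < 1 := by exact_mod_cast h3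
    have h5 := Int.abs_lt_one_iff.1 h4
    omega
  refine Prod.ext (key _ _ ?_) (key _ _ ?_)
  · rw [abs_lt]
    constructor <;> linarith
  · rw [abs_lt]
    constructor <;> linarith

theorem select {F : Finset Sq} {s : ℝ} (hs : 0 < s) (hF : ∀ Q ∈ F, Q.s ≤ s)
    (ch : ℝ × ℝ → Sq) (hch : ∀ p ∈ Un F, ch p ∈ F ∧ p ∈ (ch p).set) (u : ℝ × ℝ) :
    ∃ G ⊆ F, No G ∧ (∀ Q ∈ G, ∃ p ∈ Un F, Q = ch p) ∧ ∑ Q ∈ G, ENNReal.ofReal (Q.s ^ 2) =
      ∑' z : ℤ × ℤ, (Un F).indicator (fun p => ENNReal.ofReal ((ch p).s ^ 2)) (u + lp (2 * s) z) := by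
  classical
  set Z : Set (ℤ × ℤ) := {z | u + lp (2 * s) z ∈ Un F} with hZ
  have hinj : Set.InjOn (fun z => ch (u + lp (2 * s) z)) Z := by
    intro z hz z' hz' h
    by_contra hne
    have h1 := hch _ hz
    have h2 := hch _ hz'
    simp only at h
    rw [← h] at h2
    exact not_ov_of_lattice hs (hF _ h1.1) (hF _ h1.1) hne h1.2 h2.2 (ov_self _)
  have hfin : Z.Finite := by
    refine Set.Finite.of_finite_image (f := fun z => ch (u + lp (2 * s) z)) ?_ hinj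
    refine F.finite_toSet.subset ?_
    rintro _ ⟨z, hz, rfl⟩
    exact (hch _ hz).1
  refine ⟨hfin.toFinset.image (fun z => ch (u + lp (2 * s) z)), ?_, ?_, ?_, ?_⟩
  · intro Q hQ
    rw [Finset.mem_image] at hQ
    obtain ⟨z, hz, rfl⟩ := hQ
    rw [Set.Finite.mem_toFinset] at hz
    exact (hch _ hz).1
  · intro P hP Q hQ hPQ
    rw [Finset.mem_image] at hP hQ
    obtain ⟨z, hz, rfl⟩ := hP
    obtain ⟨z', hz', rfl⟩ := hQ
    rw [Set.Finite.mem_toFinset] at hz hz'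
    have h1 := hch _ hz
    have h2 := hch _ hz'
    refine not_ov_of_lattice hs (hF _ h1.1) (hF _ h2.1) (fun h => hPQ (by rw [h])) h1.2 h2.2
  · intro Q hQ
    rw [Finset.mem_image] at hQ
    obtain ⟨z, hz, rfl⟩ := hQ
    rw [Set.Finite.mem_toFinset] at hz
    exact ⟨_, hz, rfl⟩
  · rw [Finset.sum_image (fun z hz z' hz' h => hinj (by simpa using hz) (by simpa using hz') h)]
    rw [tsum_eq_sum (s := hfin.toFinset)]
    · refine Finset.sum_congr rfl fun z hz => ?_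
      rw [Set.Finite.mem_toFinset] at hz
      have hz' : u + lp (2 * s) z ∈ Un F := hz
      rw [indicator_of_mem hz']
    · intro z hz
      rw [Set.Finite.mem_toFinset] at hz
      have hz' : u + lp (2 * s) z ∉ Un F := hz
      exact indicator_of_notMem hz' _

/-- the measure of a nonoverlapping family -/
theorem sum_le_area {G : Finset Sq} (h : No G) :
    ∑ Q ∈ G, ENNReal.ofReal (Q.s ^ 2) ≤ volume (Un G) := by
  refine le_trans (le_of_eq ?_) (sum_le_volume h)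
  refine Finset.sum_congr rfl fun Q _ => ?_
  rw [pow_two, ENNReal.ofReal_mul Q.pos.le]

/-- for an arbitrary choice function the weighted measure is attained -/
theorem lattice_ge {F : Finset Sq} {s : ℝ} (hs : 0 < s) (hF : ∀ Q ∈ F, Q.s ≤ s)
    (ch : ℝ × ℝ → Sq) (hch : ∀ p ∈ Un F, ch p ∈ F ∧ p ∈ (ch p).set)
    (hm : Measurable ((Un F).indicator (fun p => ENNReal.ofReal ((ch p).s ^ 2)))) :
    ∃ G ⊆ F, No G ∧ (∀ Q ∈ G, ∃ p ∈ Un F, Q = ch p) ∧
      ∫⁻ p in Un F, ENNReal.ofReal ((ch p).s ^ 2) ≤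
        (∑ Q ∈ G, ENNReal.ofReal (Q.s ^ 2)) * ENNReal.ofReal ((2 * s) ^ 2) := by
  have hint : ∫⁻ p, (Un F).indicator (fun p => ENNReal.ofReal ((ch p).s ^ 2)) p
      = ∫⁻ p in Un F, ENNReal.ofReal ((ch p).s ^ 2) :=
    lintegral_indicator (measurableSet_union F) _
  have hfin : ∫⁻ p in Un F, ENNReal.ofReal ((ch p).s ^ 2) ≠ ⊤ := by
    have h1 : ∫⁻ p in Un F, ENNReal.ofReal ((ch p).s ^ 2) ≤ ∫⁻ p in Un F, ENNReal.ofReal (s ^ 2) := by
      refine setLIntegral_mono' (measurableSet_union F) fun p hp => ?_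
      apply ENNReal.ofReal_le_ofReal
      have := (ch p).pos
      exact pow_le_pow_left₀ this.le (hF _ (hch p hp).1) 2
    refine ne_top_of_le_ne_top ?_ h1
    rw [setLIntegral_const]
    exact ENNReal.mul_ne_top ENNReal.ofReal_ne_top (volume_ne_top F)
  obtain ⟨u, hu⟩ := exists_ge (L := 2 * s) (by positivity) hm (by rw [hint]; exact hfin)
  obtain ⟨G, hGF, hno, hG, hsum⟩ := select hs hF ch hch u
  refine ⟨G, hGF, hno, hG, ?_⟩
  rw [hsum, ← hint]
  exact hu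

end Pool.Agent.Helper19.Rado
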