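import Pool.Agent.Helper19.Rado.Key

/-!
# One step: a good translate of the lattice
-/

open MeasureTheory Set
open scoped ENNReal NNReal

namespace Pool.Agent.Helper19.Rado

open Pool.Agent.Helper15.Rado

theorem integral_ind {μ : Measure (ℝ × ℝ)} [IsFiniteMeasure μ] {A : Set (ℝ × ℝ)}
    (hA : MeasurableSet A) (c : ℝ) :
    Integrable (A.indicator (fun _ => c)) μ ∧ ∫ u, A.indicator (fun _ => c) u ∂μ = c * μ.real A := by
  constructor
  · exact (integrable_const c).indicator hA
  · rw [integral_indicator hA, setIntegral_const, smul_eq_mul, mul_comm]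

/-- the members of `F` which overlap a member of `G` -/
noncomputable def met (F G : Finset Sq) : Finset Sq := by
  classical
  exact F.filter fun K => ∃ Q ∈ G, ov K Q

theorem mem_met {F G : Finset Sq} {K : Sq} : K ∈ met F G ↔ K ∈ F ∧ ∃ Q ∈ G, ov K Q := by
  classical
  unfold met
  rw [Finset.mem_filter]

theorem step {μ s ξ : ℝ} (hμ : 0 < μ) (hμ1 : μ ≤ 1) (hs : 0 < s) (hξ : 0 ≤ ξ)
    (hξ1 : ξ * (6 * μ + 3 * μ ^ 2) ≤ 1) {F : Finset Sq}
    (hF : ∀ Q ∈ F, Q.s = s) (hne : F.Nonempty) {ch : ℝ × ℝ → Sq}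
    (hch : ∀ p ∈ Un F, ch p ∈ F ∧ p ∈ (ch p).set)
    (hm : ∀ K, MeasurableSet (cl F ch K)) :
    ∃ G ⊆ F, G.Nonempty ∧ No G ∧
      (1 - ξ * (2 * μ + 3 * μ ^ 2)) / 4 * ∑ K ∈ met F G, pt F ch K
        ≤ ∑ K ∈ G, (s ^ 2 - ξ * wt (μ * s) F K) := by
  classical
  have hL : 0 < 2 * s := by positivity
  set η := (1 - ξ * (2 * μ + 3 * μ ^ 2)) / 4 with hη
  have hη0 : 0 ≤ η := by
    have : 0 ≤ ξ * μ := mul_nonneg hξ hμ.le
    rw [hη]
    nlinarith
  have hA : ∀ K, MeasurableSet (hit (2 * s) (cl F ch K)) := fun K => measurableSet_hit _ (hm K)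
  have hB : ∀ K, MeasurableSet (hit (2 * s) (Bl F ch K)) :=
    fun K => measurableSet_hit _ (measurableSet_Bl hch hm K)
  set f : ℝ × ℝ → ℝ := fun u => ∑ K ∈ F,
    ((hit (2 * s) (cl F ch K)).indicator (fun _ => s ^ 2 - ξ * wt (μ * s) F K) u
      - (hit (2 * s) (Bl F ch K)).indicator (fun _ => η * pt F ch K) u) with hf
  have : IsFiniteMeasure (volume.restrict (box (2 * s))) :=
    ⟨by rw [Measure.restrict_apply_univ]; exact lt_top_iff_ne_top.2 (box_ne_top _)⟩
  have hint1 : ∀ K ∈ F, Integrable (fun u => (hit (2 * s) (cl F ch K)).indicator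
      (fun _ => s ^ 2 - ξ * wt (μ * s) F K) u
      - (hit (2 * s) (Bl F ch K)).indicator (fun _ => η * pt F ch K) u)
      (volume.restrict (box (2 * s))) :=
    fun K _ => (integral_ind (hA K) _).1.sub (integral_ind (hB K) _).1
  have hint : Integrable f (volume.restrict (box (2 * s))) := integrable_finsetSum _ hint1
  -- the integral
  have hpos : 0 ≤ ∫ u in box (2 * s), f u := by
    rw [hf]
    rw [integral_finsetSum _ hint1]
    refine Finset.sum_nonneg fun K hK => ?_
    rw [integral_sub (integral_ind (hA K) _).1 (integral_ind (hB K) _).1,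
      (integral_ind (hA K) _).2, (integral_ind (hB K) _).2]
    have e1 : (volume.restrict (box (2 * s))).real (hit (2 * s) (cl F ch K)) = pt F ch K := by
      rw [measureReal_def, Measure.restrict_apply (hA K), inter_comm,
        volume_hit hL (hm K) fun u z z' h1 h2 => small hs (hF K hK) (cl_subset hch K h1)
          (cl_subset hch K h2), pt]
    have e2 : (volume.restrict (box (2 * s))).real (hit (2 * s) (Bl F ch K)) = bl s F ch K := by
      rw [measureReal_def, Measure.restrict_apply (hB K), inter_comm, bl]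
    rw [e1, e2]
    have h1 := bracket hμ hμ1 hs hξ hξ1 hF hch hm hK
    have h2 : 0 ≤ pt F ch K := ENNReal.toReal_nonneg
    have h3 := mul_nonneg h2 h1
    rw [← hη] at h3
    nlinarith
  set S := box (2 * s) ∩ hit (2 * s) (Un F) with hS
  have hSm : MeasurableSet S := (measurableSet_box _).inter
    (measurableSet_hit _ (measurableSet_union F))
  have hzero : ∀ u, u ∉ hit (2 * s) (Un F) → f u = 0 := by
    intro u hu
    refine Finset.sum_eq_zero fun K _ => ?_
    rw [indicator_of_notMem (fun h => hu (hit_mono (fun p hp => hp.1) h)),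
      indicator_of_notMem (fun h => hu (hit_mono (fun p hp => hp.1) h)), sub_zero]
  have hSint : ∫ u in box (2 * s), f u = ∫ u in S, f u :=
    setIntegral_eq_of_subset_of_forall_sdiff_eq_zero (measurableSet_box _) inter_subset_left
      fun u hu => hzero u fun h => hu.2 ⟨hu.1, h⟩
  have hS0 : volume S ≠ 0 := by
    obtain ⟨Q, hQ⟩ := hne
    have h1 : volume (box (2 * s) ∩ hit (2 * s) Q.set) ≤ volume S :=
      measure_mono (inter_subset_inter_right _ (hit_mono fun p hp => mem_Un.2 ⟨Q, hQ, hp⟩))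
    rw [volume_hit hL (measurableSet_set Q) fun u z z' h1 h2 => small hs (hF Q hQ) h1 h2,
      volume_set, hF Q hQ] at h1
    have h2 : 0 < ENNReal.ofReal (s ^ 2) := ENNReal.ofReal_pos.2 (by positivity)
    exact (h2.trans_le h1).ne'
  have hS1 : volume S ≠ ⊤ := ne_top_of_le_ne_top (box_ne_top _) (measure_mono inter_subset_left)
  obtain ⟨u, hu, hfu⟩ := exists_setAverage_le hS0 hS1
    (IntegrableOn.mono_set (t := box (2 * s)) hint inter_subset_left)
  have hfu0 : 0 ≤ f u := by
    refine le_trans ?_ hfu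
    rw [setAverage_eq]
    exact smul_nonneg (inv_nonneg.2 measureReal_nonneg) (by rw [← hSint]; exact hpos)
  refine ⟨F.filter (fun K => u ∈ hit (2 * s) (cl F ch K)), Finset.filter_subset _ _, ?_, ?_, ?_⟩
  · obtain ⟨z, hz⟩ := hu.2
    exact ⟨ch (u + lp (2 * s) z), Finset.mem_filter.2 ⟨(hch _ hz).1, z, hz, rfl⟩⟩
  · intro P hP Q hQ hPQ
    obtain ⟨hP1, z, hz1, hz2⟩ := Finset.mem_filter.1 hP
    obtain ⟨hQ1, z', hz1', hz2'⟩ := Finset.mem_filter.1 hQ
    refine not_ov_of_lattice hs (hF P hP1).le (hF Q hQ1).le (u := u) (z := z) (z' := z') ?_ ?_ ?_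
    · rintro rfl
      exact hPQ (hz2.symm.trans hz2')
    · rw [← hz2]; exact (hch _ hz1).2
    · rw [← hz2']; exact (hch _ hz1').2
  · rw [hf] at hfu0
    simp only at hfu0
    rw [Finset.sum_sub_distrib] at hfu0
    have e1 : ∑ K ∈ F, (hit (2 * s) (cl F ch K)).indicator
        (fun _ => s ^ 2 - ξ * wt (μ * s) F K) u
        = ∑ K ∈ F.filter (fun K => u ∈ hit (2 * s) (cl F ch K)), (s ^ 2 - ξ * wt (μ * s) F K) := by
      rw [Finset.sum_filter]
      refine Finset.sum_congr rfl fun K _ => ?_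
      rw [indicator_apply]
    have e2 : η * ∑ K ∈ met F (F.filter (fun K => u ∈ hit (2 * s) (cl F ch K))), pt F ch K
        ≤ ∑ K ∈ F, (hit (2 * s) (Bl F ch K)).indicator (fun _ => η * pt F ch K) u := by
      rw [Finset.mul_sum]
      have h1 : ∀ K, 0 ≤ (hit (2 * s) (Bl F ch K)).indicator (fun _ => η * pt F ch K) u :=
        fun K => indicator_nonneg (fun _ _ => mul_nonneg hη0 ENNReal.toReal_nonneg) u
      refine le_trans (Finset.sum_le_sum fun K hK => ?_)
        (Finset.sum_le_sum_of_subset_of_nonneg (fun K hK => (mem_met.1 hK).1) fun K _ _ => h1 K)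
      obtain ⟨-, Q, hQ, hov⟩ := mem_met.1 hK
      obtain ⟨hQ1, z, hz1, hz2⟩ := Finset.mem_filter.1 hQ
      have : u ∈ hit (2 * s) (Bl F ch K) := ⟨z, hz1, by rw [hz2]; exact hov⟩
      rw [indicator_of_mem this]
    rw [← e1]
    linarith

end Pool.Agent.Helper19.Rado
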