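import Pool.Agent.Helper19.Rado.Blk

/-!
# The squeeze map

The squeeze map fixes the interval `(q, q + s)` and contracts the two intervals of length `s`
on its sides by the factor `μ` towards it. The density `den` is periodic with period `2 s`.
-/

open MeasureTheory Set
open scoped ENNReal NNReal

namespace Pool.Agent.Helper19.Rado

open Pool.Agent.Helper15.Rado

/-- the squeeze map -/
noncomputable def sqz (μ q s x : ℝ) : ℝ :=
  if x ≤ q then μ * x + (q - μ * q) else
    if x < q + s then x else μ * x + (q + s - μ * (q + s))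

/-- the density -/
noncomputable def den (μ q s x : ℝ) : ℝ≥0∞ :=
  if 0 < Int.fract ((x - q) / (2 * s)) ∧ Int.fract ((x - q) / (2 * s)) < 1 / 2 then 1
  else ENNReal.ofReal μ

theorem measurable_sqz (μ q s : ℝ) : Measurable (sqz μ q s) := by
  unfold sqz
  refine Measurable.ite measurableSet_Iic (by fun_prop) ?_
  exact Measurable.ite measurableSet_Iio (by fun_prop) (by fun_prop)

theorem measurable_den (μ q s : ℝ) : Measurable (den μ q s) := by
  unfold den
  refine Measurable.ite ?_ measurable_const measurable_const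
  have h : Measurable fun x : ℝ => Int.fract ((x - q) / (2 * s)) :=
    measurable_fract.comp (by fun_prop)
  exact (h measurableSet_Ioi).inter (h measurableSet_Iio)

theorem den_add {μ q s : ℝ} (hs : 0 < s) (x : ℝ) (k : ℤ) :
    den μ q s (x + 2 * s * k) = den μ q s x := by
  unfold den
  have h : (x + 2 * s * k - q) / (2 * s) = (x - q) / (2 * s) + k := by
    field_simp
    ring
  rw [h, Int.fract_add_intCast]

theorem den_one {μ q s x : ℝ} (hs : 0 < s) (hx : x ∈ Ioo q (q + s)) : den μ q s x = 1 := by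
  unfold den
  have h1 : 0 < (x - q) / (2 * s) := div_pos (by linarith [hx.1]) (by positivity)
  have h2 : (x - q) / (2 * s) < 1 / 2 := by
    rw [div_lt_iff₀ (by positivity)]
    linarith [hx.2]
  have h3 : Int.fract ((x - q) / (2 * s)) = (x - q) / (2 * s) :=
    Int.fract_eq_self.2 ⟨h1.le, by linarith⟩
  rw [h3, if_pos ⟨h1, h2⟩]

theorem den_left {μ q s x : ℝ} (hs : 0 < s) (hx : x ∈ Icc (q - s) q) :
    den μ q s x = ENNReal.ofReal μ := by
  unfold den
  rw [if_neg]
  rintro ⟨h1, h2⟩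
  have h3 : -(1 / 2) ≤ (x - q) / (2 * s) := by
    rw [le_div_iff₀ (by positivity)]
    linarith [hx.1]
  have h4 : (x - q) / (2 * s) ≤ 0 := div_nonpos_of_nonpos_of_nonneg (by linarith [hx.2]) (by positivity)
  rcases h4.lt_or_eq with h5 | h5
  · have h6 : ⌊(x - q) / (2 * s)⌋ = -1 := by
      rw [Int.floor_eq_iff]
      push_cast
      constructor <;> linarith
    rw [Int.fract, h6] at h2
    push_cast at h2
    linarith
  · rw [h5, Int.fract_zero] at h1
    exact lt_irrefl _ h1

theorem den_right {μ q s x : ℝ} (hs : 0 < s) (hx : x ∈ Icc (q + s) (q + 2 * s)) :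
    den μ q s x = ENNReal.ofReal μ := by
  have h := den_add (μ := μ) (q := q) hs (x - 2 * s) 1
  rw [← den_left (μ := μ) (q := q) hs (x := x - 2 * s) ⟨by linarith [hx.1], by linarith [hx.2]⟩, ← h]
  congr 1
  push_cast
  ring

theorem den_le {μ q s x : ℝ} (hμ1 : μ ≤ 1) : den μ q s x ≤ 1 := by
  unfold den
  split_ifs
  · exact le_rfl
  · exact ENNReal.ofReal_le_one.2 hμ1

/-- affine substitution -/
theorem aff {μ : ℝ} (hμ : 0 < μ) (c : ℝ) (E : Set ℝ) :
    volume E = ENNReal.ofReal μ * volume ((fun x => μ * x + c) ⁻¹' E) := by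
  have h1 : (fun x => μ * x + c) ⁻¹' E = (μ * ·) ⁻¹' ((· + c) ⁻¹' E) := rfl
  rw [h1, Real.volume_preimage_mul_left hμ.ne', measure_preimage_add_right, ← mul_assoc,
    ← ENNReal.ofReal_mul hμ.le, abs_of_pos (inv_pos.2 hμ), mul_inv_cancel₀ hμ.ne',
    ENNReal.ofReal_one, one_mul]

theorem split_three {q a b c : ℝ} (f : ℝ → ℝ≥0∞) {S : Set ℝ} (hS : MeasurableSet S)
    (h1 : a < q) (h2 : q < b) (h3 : b < c) :
    ∫⁻ x in Ioo a c ∩ S, f x = (∫⁻ x in Ioc a q ∩ S, f x) + ((∫⁻ x in Ioo q b ∩ S, f x)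
      + ∫⁻ x in Ico b c ∩ S, f x) := by
  have hI : Ioo a c = Ioc a q ∪ (Ioo q b ∪ Ico b c) := by
    rw [Ioo_union_Ico_eq_Ioo h2 h3.le, Ioc_union_Ioo_eq_Ioo h1.le (h2.trans h3)]
  have hd1 : Disjoint (Ioo q b ∩ S) (Ico b c ∩ S) := by
    rw [Set.disjoint_left]
    rintro x ⟨⟨-, h4⟩, -⟩ ⟨⟨h5, -⟩, -⟩
    exact absurd h4 (not_lt.2 h5)
  have hd2 : Disjoint (Ioc a q ∩ S) ((Ioo q b ∩ S) ∪ (Ico b c ∩ S)) := by
    rw [Set.disjoint_left]
    rintro x ⟨⟨-, h4⟩, -⟩ (⟨⟨h5, -⟩, -⟩ | ⟨⟨h5, -⟩, -⟩)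
    · exact absurd h5 (not_lt.2 h4)
    · exact absurd (h2.trans_le h5) (not_lt.2 h4)
  rw [hI, union_inter_distrib_right, union_inter_distrib_right,
    lintegral_union ((measurableSet_Ioo.inter hS).union (measurableSet_Ico.inter hS)) hd2,
    lintegral_union (measurableSet_Ico.inter hS) hd1]

theorem squeeze_one {μ q s : ℝ} (hμ : 0 < μ) (hs : 0 < s) {E : Set ℝ} (hE : MeasurableSet E) :
    ∫⁻ x in sqz μ q s ⁻¹' E, (Ioo (q - s) (q + 2 * s)).indicator (den μ q s) x
      = volume (E ∩ Ioo (q - μ * s) (q + s + μ * s)) := by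
  have hS : MeasurableSet (sqz μ q s ⁻¹' E) := measurable_sqz μ q s hE
  have hms : 0 < μ * s := by positivity
  have e1 : volume (E ∩ Ioo (q - μ * s) (q + s + μ * s))
      = ∫⁻ x in Ioo (q - μ * s) (q + s + μ * s) ∩ E, 1 := by
    rw [setLIntegral_one, inter_comm]
  rw [e1, setLIntegral_indicator measurableSet_Ioo,
    split_three (q := q) (b := q + s) _ hS (by linarith) (by linarith) (by linarith),
    split_three (q := q) (b := q + s) _ hE (by linarith) (by linarith) (by linarith)]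
  simp only [setLIntegral_one]
  congr 1
  · rw [setLIntegral_congr_fun (g := fun _ => ENNReal.ofReal μ) (measurableSet_Ioc.inter hS)
      (fun x hx => den_left hs ⟨hx.1.1.le, hx.1.2⟩), setLIntegral_const,
      aff hμ (q - μ * q) (Ioc (q - μ * s) q ∩ E)]
    congr 2
    ext x
    simp only [mem_inter_iff, mem_Ioc, mem_preimage]
    constructor
    · rintro ⟨⟨h1, h2⟩, h3⟩
      rw [sqz, if_pos h2] at h3
      exact ⟨⟨by nlinarith, by nlinarith⟩, h3⟩
    · rintro ⟨⟨h1, h2⟩, h3⟩
      have h4 : x ≤ q := by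
        by_contra h
        push Not at h
        nlinarith
      rw [sqz, if_pos h4]
      refine ⟨⟨?_, h4⟩, h3⟩
      by_contra h
      push Not at h
      nlinarith
  congr 1
  · rw [setLIntegral_congr_fun (g := fun _ => (1 : ℝ≥0∞)) (measurableSet_Ioo.inter hS)
      (fun x hx => den_one hs hx.1), setLIntegral_one]
    congr 1
    ext x
    simp only [mem_inter_iff, mem_Ioo, mem_preimage]
    constructor
    · rintro ⟨⟨h1, h2⟩, h3⟩
      rw [sqz, if_neg (not_le.2 h1), if_pos h2] at h3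
      exact ⟨⟨h1, h2⟩, h3⟩
    · rintro ⟨⟨h1, h2⟩, h3⟩
      rw [sqz, if_neg (not_le.2 h1), if_pos h2]
      exact ⟨⟨h1, h2⟩, h3⟩
  · rw [setLIntegral_congr_fun (g := fun _ => ENNReal.ofReal μ) (measurableSet_Ico.inter hS)
      (fun x hx => den_right hs ⟨hx.1.1, hx.1.2.le⟩), setLIntegral_const,
      aff hμ (q + s - μ * (q + s)) (Ico (q + s) (q + s + μ * s) ∩ E)]
    congr 2
    ext x
    simp only [mem_inter_iff, mem_Ico, mem_preimage]
    constructor
    · rintro ⟨⟨h1, h2⟩, h3⟩
      rw [sqz, if_neg (by linarith), if_neg (by linarith)] at h3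
      exact ⟨⟨by nlinarith, by nlinarith⟩, h3⟩
    · rintro ⟨⟨h1, h2⟩, h3⟩
      have h4 : q + s ≤ x := by
        by_contra h
        push Not at h
        nlinarith
      rw [sqz, if_neg (by linarith), if_neg (by linarith)]
      refine ⟨⟨h4, ?_⟩, h3⟩
      by_contra h
      push Not at h
      nlinarith

/-- the measure with density `den` on `(q - s, q + 2 s)` -/
noncomputable def nu (μ q s : ℝ) : Measure ℝ :=
  volume.withDensity ((Ioo (q - s) (q + 2 * s)).indicator (den μ q s))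

instance (μ q s : ℝ) : SFinite (nu μ q s) := by
  unfold nu
  infer_instance

theorem map_nu {μ q s : ℝ} (hμ : 0 < μ) (hs : 0 < s) :
    (nu μ q s).map (sqz μ q s) = volume.restrict (Ioo (q - μ * s) (q + s + μ * s)) := by
  ext E hE
  rw [Measure.map_apply (measurable_sqz μ q s) hE, nu,
    withDensity_apply _ (measurable_sqz μ q s hE), squeeze_one hμ hs hE, Measure.restrict_apply hE]

/-- the two dimensional statement -/
theorem squeeze_two {μ q q' s : ℝ} (hμ : 0 < μ) (hs : 0 < s) {E U : Set (ℝ × ℝ)}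
    (hE : MeasurableSet E) (hU : MeasurableSet U)
    (hEB : E ⊆ Ioo (q - s) (q + 2 * s) ×ˢ Ioo (q' - s) (q' + 2 * s))
    (hEU : ∀ p ∈ E, (sqz μ q s p.1, sqz μ q' s p.2) ∈ U) :
    ∫⁻ p in E, den μ q s p.1 * den μ q' s p.2 ≤
      volume (U ∩ Ioo (q - μ * s) (q + s + μ * s) ×ˢ Ioo (q' - μ * s) (q' + s + μ * s)) := by
  have hm1 := measurable_sqz μ q s
  have hm2 := measurable_sqz μ q' s
  have hi1 : Measurable ((Ioo (q - s) (q + 2 * s)).indicator (den μ q s)) :=
    (measurable_den μ q s).indicator measurableSet_Ioo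
  have hi2 : Measurable ((Ioo (q' - s) (q' + 2 * s)).indicator (den μ q' s)) :=
    (measurable_den μ q' s).indicator measurableSet_Ioo
  have e1 : volume (U ∩ Ioo (q - μ * s) (q + s + μ * s) ×ˢ Ioo (q' - μ * s) (q' + s + μ * s))
      = (((nu μ q s).prod (nu μ q' s)).map (Prod.map (sqz μ q s) (sqz μ q' s))) U := by
    rw [← Measure.restrict_apply hU, Measure.volume_eq_prod, ← Measure.prod_restrict,
      ← map_nu hμ hs, ← map_nu hμ hs]
    rw [Measure.map_prod_map _ _ hm1 hm2]
  rw [e1, Measure.map_apply (hm1.prodMap hm2) hU]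
  refine le_trans (le_of_eq ?_) (measure_mono (s := E) fun p hp => hEU p hp)
  rw [nu, nu, prod_withDensity hi1 hi2, withDensity_apply _ hE, ← Measure.volume_eq_prod]
  refine setLIntegral_congr_fun hE fun p hp => ?_
  have h := hEB hp
  rw [indicator_of_mem h.1, indicator_of_mem h.2]

end Pool.Agent.Helper19.Rado
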